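import Pool.Agent.H299_Slow.Run

set_option autoImplicit false

namespace Pool.Agent.H299.Slow

open Finset

section gen
variable {G : Type} [Group G] [Fintype G]

/-- the step as a linear map -/
noncomputable def LS (S : Finset G) : Module.End ℝ (G → ℝ) where
  toFun p := lazyStep S p
  map_add' := by
    intro x y; funext g
    simp only [lazyStep, Pi.add_apply, Finset.sum_add_distrib]
    ring
  map_smul' := by
    intro c y; funext g
    simp only [lazyStep, Pi.smul_apply, smul_eq_mul, ← Finset.mul_sum, RingHom.id_apply]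
    ring

lemma LS_apply (S : Finset G) (p : G → ℝ) : LS S p = lazyStep S p := rfl

lemma law_LS (S : Finset G) (T : ℕ) : law S T = (LS S ^ T) (law S 0) := by
  induction T with
  | zero => simp
  | succ T ih => rw [law_succ, pow_succ', Module.End.mul_apply, ← ih, LS_apply]

lemma LS_pow_conv (S : Finset G) (T : ℕ) (p : G → ℝ) (x : G) :
    (LS S ^ T) p x = ∑ y, p y * law S T (y⁻¹ * x) := by
  induction T generalizing x with
  | zero =>
    classical
    have : ∀ y, law S 0 (y⁻¹ * x) = if y = x then 1 else 0 := by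
      intro y
      unfold law
      simp only [Function.iterate_zero, id]
      by_cases h : y = x
      · subst h; simp
      · have h2 : y⁻¹ * x ≠ 1 := fun h3 => h (by rwa [inv_mul_eq_one] at h3)
        simp [h, h2]
    simp [this]
  | succ T ih =>
    rw [pow_succ', Module.End.mul_apply, LS_apply, law_succ]
    unfold lazyStep
    rw [ih]
    have h1 : ∀ s : G, (LS S ^ T) p (x * s⁻¹) = ∑ y, p y * law S T (y⁻¹ * x * s⁻¹) := by
      intro s
      rw [ih]
      refine Finset.sum_congr rfl (fun y _ => by rw [mul_assoc])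
    simp only [h1]
    rw [Finset.sum_comm]
    simp only [← Finset.mul_sum]
    rw [Finset.sum_div, Finset.sum_div, ← Finset.sum_add_distrib]
    refine Finset.sum_congr rfl (fun y _ => by ring)

lemma LS_nrm_pow (S : Finset G) (hS : S.Nonempty) (T : ℕ) (p : G → ℝ) :
    nrm ((LS S ^ T) p) ≤ nrm p := by
  unfold nrm
  calc ∑ x, |(LS S ^ T) p x| ≤ ∑ x, ∑ y, |p y| * law S T (y⁻¹ * x) := by
        refine Finset.sum_le_sum (fun x _ => ?_)
        rw [LS_pow_conv]
        refine (Finset.abs_sum_le_sum_abs _ _).trans (Finset.sum_le_sum (fun y _ => ?_))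
        rw [abs_mul, abs_of_nonneg (law_nonneg _ _ _)]
    _ = ∑ y, |p y| := by
        rw [Finset.sum_comm]
        refine Finset.sum_congr rfl (fun y _ => ?_)
        rw [← Finset.mul_sum]
        have : ∑ x, law S T (y⁻¹ * x) = 1 := by
          rw [← law_sum S hS T]
          exact Fintype.sum_equiv (Equiv.mulLeft y⁻¹) _ _ (fun x => rfl)
        rw [this, mul_one]

lemma LS_sum (S : Finset G) (hS : S.Nonempty) (T : ℕ) (p : G → ℝ) :
    ∑ x, (LS S ^ T) p x = ∑ x, p x := by
  simp only [LS_pow_conv]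
  rw [Finset.sum_comm]
  refine Finset.sum_congr rfl (fun y _ => ?_)
  rw [← Finset.mul_sum]
  have : ∑ x, law S T (y⁻¹ * x) = 1 := by
    rw [← law_sum S hS T]
    exact Fintype.sum_equiv (Equiv.mulLeft y⁻¹) _ _ (fun x => rfl)
  rw [this, mul_one]

lemma LS_half (S : Finset G) (T : ℕ) (hT : T ∈ mixed S) (p : G → ℝ) (hp : ∑ x, p x = 0) :
    nrm ((LS S ^ T) p) ≤ 1 / 2 * nrm p := by
  obtain ⟨u, hu⟩ : ∃ u : ℝ, u = 1 / (Fintype.card G : ℝ) := ⟨_, rfl⟩
  have hT' : ∑ g, |law S T g - u| ≤ 1 / 2 := by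
    have h1 : (1 / 2 : ℝ) * ∑ g, |law S T g - 1 / (Fintype.card G : ℝ)| ≤ 1 / 4 := hT
    rw [← hu] at h1; linarith
  unfold nrm
  calc ∑ x, |(LS S ^ T) p x| ≤ ∑ x, ∑ y, |p y| * |law S T (y⁻¹ * x) - u| := by
        refine Finset.sum_le_sum (fun x _ => ?_)
        have : (LS S ^ T) p x = ∑ y, p y * (law S T (y⁻¹ * x) - u) := by
          rw [LS_pow_conv]
          simp only [mul_sub, Finset.sum_sub_distrib]
          rw [← Finset.sum_mul, hp]; ring
        rw [this]
        refine (Finset.abs_sum_le_sum_abs _ _).trans (Finset.sum_le_sum (fun y _ => ?_))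
        rw [abs_mul]
    _ = (∑ y, |p y|) * ∑ g, |law S T g - u| := by
        rw [Finset.sum_comm, Finset.sum_mul]
        refine Finset.sum_congr rfl (fun y _ => ?_)
        rw [← Finset.mul_sum]
        congr 1
        exact Fintype.sum_equiv (Equiv.mulLeft y⁻¹) _ _ (fun x => rfl)
    _ ≤ (∑ y, |p y|) * (1 / 2) :=
        mul_le_mul_of_nonneg_left hT' (Finset.sum_nonneg (fun _ _ => abs_nonneg _))
    _ = _ := by ring

lemma LS_comm (S D : Finset G) (h : ∀ g, ∀ s ∈ S, g * s * g⁻¹ ∈ S) :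
    Commute (LS S) (LS D) := by
  apply LinearMap.ext
  intro p
  funext x
  simp only [Module.End.mul_apply, LS_apply, lazyStep]
  have key : ∑ s ∈ S, ∑ d ∈ D, p (x * s⁻¹ * d⁻¹) = ∑ d ∈ D, ∑ s ∈ S, p (x * d⁻¹ * s⁻¹) := by
    rw [Finset.sum_comm]
    refine Finset.sum_congr rfl (fun d _ => ?_)
    refine Finset.sum_nbij' (fun s => d * s * d⁻¹) (fun s => d⁻¹ * s * d)
      (fun s hs => h d s hs) (fun s hs => by simpa using h d⁻¹ s hs) ?_ ?_ ?_
    · intro s _; group
    · intro s _; group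
    · intro s _
      congr 1
      group
  have e1 : ∑ s ∈ S, (p (x * s⁻¹) / 2 + (∑ d ∈ D, p (x * s⁻¹ * d⁻¹)) / (2 * (D.card : ℝ))) =
      (∑ s ∈ S, p (x * s⁻¹)) / 2 + (∑ s ∈ S, ∑ d ∈ D, p (x * s⁻¹ * d⁻¹)) / (2 * (D.card : ℝ)) := by
    rw [Finset.sum_add_distrib, Finset.sum_div, Finset.sum_div]
  have e2 : ∑ d ∈ D, (p (x * d⁻¹) / 2 + (∑ s ∈ S, p (x * d⁻¹ * s⁻¹)) / (2 * (S.card : ℝ))) =
      (∑ d ∈ D, p (x * d⁻¹)) / 2 + (∑ d ∈ D, ∑ s ∈ S, p (x * d⁻¹ * s⁻¹)) / (2 * (S.card : ℝ)) := by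
    rw [Finset.sum_add_distrib, Finset.sum_div, Finset.sum_div]
  rw [e1, e2, key]
  ring

theorem comm_bound (S S' : Finset G) (hS : S.Nonempty) (hSS : S ⊆ S')
    (h : (∀ g, ∀ s ∈ S, g * s * g⁻¹ ∈ S) ∨ (∀ g, ∀ s ∈ S', g * s * g⁻¹ ∈ S')) (T : ℕ)
    (hT : T ∈ mixed S) (C : ℝ) (hC : (S'.card : ℝ) ≤ C * S.card) :
    ((sInf (mixed S') : ℕ) : ℝ) ≤ 9 * C * T := by
  rcases Nat.eq_zero_or_pos T with hT0 | hT0
  · subst hT0
    have h1 : (0 : ℕ) ∈ mixed S' := by
      have h2 : (1 / 2 : ℝ) * ∑ g, |law S 0 g - 1 / (Fintype.card G : ℝ)| ≤ 1 / 4 := hT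
      exact h2
    have h3 : sInf (mixed S') = 0 := Nat.eq_zero_of_le_zero (Nat.sInf_le h1)
    rw [h3]; simp
  have hTr : (1 : ℝ) ≤ T := by exact_mod_cast hT0
  have hS' := hS.mono hSS
  have c1 : (0 : ℝ) < S.card := by exact_mod_cast hS.card_pos
  have c2 : (0 : ℝ) < S'.card := by exact_mod_cast hS'.card_pos
  have c3 : (S.card : ℝ) ≤ S'.card := by exact_mod_cast Finset.card_le_card hSS
  obtain ⟨θ, hθ⟩ : ∃ θ : ℝ, θ = (S.card : ℝ) / S'.card := ⟨_, rfl⟩
  have hθ0 : 0 < θ := by rw [hθ]; positivity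
  have hθ1 : θ ≤ 1 := by rw [hθ, div_le_one c2]; exact c3
  have hC1 : 1 ≤ C := by
    by_contra h
    push_neg at h
    nlinarith
  have hCθ : 1 ≤ C * θ := by
    rw [hθ, mul_div_assoc', le_div_iff₀ c2, one_mul]; exact hC
  -- the remainder operator
  classical
  obtain ⟨R, hRn, hRdec, hRc⟩ : ∃ R : Module.End ℝ (G → ℝ), (∀ (k : ℕ) (y : G → ℝ),
      nrm ((R ^ k) y) ≤ nrm y) ∧ LS S' = θ • LS S + (1 - θ) • R ∧ Commute (LS S) R := by
    by_cases hD : (S' \ S).Nonempty
    · have hdec : LS S' = θ • LS S + (1 - θ) • LS (S' \ S) := by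
        apply LinearMap.ext
        intro p
        funext x
        have cD : (((S' \ S).card : ℕ) : ℝ) = S'.card - S.card := by
          rw [Finset.card_sdiff_of_subset hSS, Nat.cast_sub (Finset.card_le_card hSS)]
        have cD0 : (0 : ℝ) < S'.card - S.card := by
          rw [← cD]; exact_mod_cast hD.card_pos
        have hsum : ∑ s ∈ S', p (x * s⁻¹) = ∑ s ∈ S, p (x * s⁻¹) + ∑ s ∈ S' \ S, p (x * s⁻¹) := by
          rw [add_comm, Finset.sum_sdiff hSS]
        simp only [LinearMap.add_apply, LinearMap.smul_apply, LS_apply, lazyStep, Pi.add_apply,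
          Pi.smul_apply, smul_eq_mul]
        rw [hsum, cD, hθ]
        have n1 := cD0.ne'
        field_simp
        ring
      refine ⟨LS (S' \ S), LS_nrm_pow _ hD, hdec, ?_⟩
      rcases h with h | h
      · exact LS_comm S _ h
      · have h1 : Commute (LS S) (LS S') := (LS_comm S' S h).symm
        have hne : (1 - θ) ≠ 0 := by
          intro h0
          have : θ = 1 := by linarith
          rw [hθ, div_eq_one_iff_eq c2.ne'] at this
          have h5 : S.card = S'.card := by exact_mod_cast this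
          have h6 := Finset.eq_of_subset_of_card_le hSS h5.ge
          rw [h6] at hD
          simp at hD
        have h2 : LS (S' \ S) = (1 - θ)⁻¹ • (LS S' - θ • LS S) := by
          rw [hdec, add_sub_cancel_left, smul_smul, inv_mul_cancel₀ hne, one_smul]
        rw [h2]
        exact ((h1.sub_right ((Commute.refl _).smul_right θ))).smul_right _
    · have h2 : S' = S := by
        refine Finset.Subset.antisymm ?_ hSS
        rw [← Finset.sdiff_eq_empty_iff_subset]
        exact Finset.not_nonempty_iff_eq_empty.1 hD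
      refine ⟨LS S, LS_nrm_pow _ hS, ?_, Commute.refl _⟩
      rw [h2, ← add_smul]; simp
  obtain ⟨lam, hlam⟩ : ∃ lam : ℝ, lam = 1 - 1 / (2 * T) := ⟨_, rfl⟩
  have h2T : 1 / (2 * (T : ℝ)) ≤ 1 / 2 := one_div_le_one_div_of_le (by norm_num) (by linarith)
  have h2T0 : 0 < 1 / (2 * (T : ℝ)) := by positivity
  have hlam0 : 1 / 2 ≤ lam := by rw [hlam]; linarith
  have hlam1 : lam ≤ 1 := by rw [hlam]; linarith
  have hlamT : 1 / 2 ≤ lam ^ T := by
    have := one_add_mul_le_pow (a := -(1 / (2 * (T : ℝ)))) (by linarith) T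
    have e : (1 : ℝ) + T * (-(1 / (2 * (T : ℝ)))) = 1 / 2 := by field_simp; norm_num
    rw [e] at this
    rw [hlam]
    have e2 : (1 : ℝ) - 1 / (2 * T) = 1 + -(1 / (2 * (T : ℝ))) := by ring
    rw [e2]; exact this
  have hPk : ∀ (k : ℕ) (y : G → ℝ), ∑ x, y x = 0 → nrm ((LS S ^ k) y) ≤ 2 * lam ^ k * nrm y := by
    intro k y hy
    have hj : ∀ j : ℕ, nrm ((LS S ^ (T * j)) y) ≤ (1 / 2) ^ j * nrm y := by
      intro j
      induction j with
      | zero => simp
      | succ j ih =>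
        rw [show T * (j + 1) = T + T * j by ring, pow_add, Module.End.mul_apply]
        refine (LS_half S T hT _ (by rw [LS_sum S hS, hy])).trans ?_
        calc 1 / 2 * nrm ((LS S ^ (T * j)) y) ≤ 1 / 2 * ((1 / 2) ^ j * nrm y) := by gcongr
          _ = _ := by ring
    have hk : k = k % T + T * (k / T) := (Nat.mod_add_div k T).symm
    have h1 : nrm ((LS S ^ k) y) ≤ (1 / 2) ^ (k / T) * nrm y := by
      conv_lhs => rw [hk]
      rw [pow_add, Module.End.mul_apply]
      exact (LS_nrm_pow S hS _ _).trans (hj _)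
    refine h1.trans (mul_le_mul_of_nonneg_right ?_ (nrm_nonneg y))
    have h3 : (1 / 2 : ℝ) ^ (k / T) ≤ lam ^ (T * (k / T)) := by
      rw [pow_mul]
      exact pow_le_pow_left₀ (by norm_num) hlamT _
    have h4 : 1 / 2 ≤ lam ^ (k % T) :=
      hlamT.trans (pow_le_pow_of_le_one (by linarith) hlam1 (Nat.mod_lt k hT0).le)
    have h5 : lam ^ k = lam ^ (k % T) * lam ^ (T * (k / T)) := by
      conv_lhs => rw [hk]
      rw [pow_add]
    rw [h5]
    have h6 : 0 ≤ lam ^ (T * (k / T)) := by positivity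
    nlinarith
  have hmain : ∀ (n : ℕ) (y : G → ℝ), ∑ x, y x = 0 →
      nrm ((LS S' ^ n) y) ≤ 2 * (1 - θ / (2 * T)) ^ n * nrm y := by
    intro n y hy
    have hcom : Commute (θ • LS S) ((1 - θ) • R) := (hRc.smul_left θ).smul_right (1 - θ)
    rw [hRdec, hcom.add_pow]
    have hexp : (∑ k ∈ Finset.range (n + 1), (θ • LS S) ^ k * ((1 - θ) • R) ^ (n - k) *
        (n.choose k : Module.End ℝ (G → ℝ))) y =
        ∑ k ∈ Finset.range (n + 1), (θ ^ k * (1 - θ) ^ (n - k) * n.choose k) •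
          (R ^ (n - k)) ((LS S ^ k) y) := by
      rw [LinearMap.sum_apply]
      refine Finset.sum_congr rfl (fun k _ => ?_)
      have hc2 : LS S ^ k * R ^ (n - k) = R ^ (n - k) * LS S ^ k := (hRc.pow_pow k (n - k)).eq
      rw [smul_pow, smul_pow, smul_mul_smul_comm, hc2]
      rw [show ((n.choose k : ℕ) : Module.End ℝ (G → ℝ)) = ((n.choose k : ℕ) : ℝ) • 1 by
        rw [Nat.cast_smul_eq_nsmul, nsmul_eq_mul, mul_one]]
      rw [mul_smul_comm, mul_one, smul_smul, LinearMap.smul_apply, Module.End.mul_apply]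
      congr 1
      ring
    rw [hexp]
    have hnsum : ∀ (s : Finset ℕ) (F : ℕ → (G → ℝ)), nrm (∑ k ∈ s, F k) ≤ ∑ k ∈ s, nrm (F k) := by
      intro s F
      induction s using Finset.induction_on with
      | empty => simp [nrm_zero]
      | insert a s ha ih =>
        rw [Finset.sum_insert ha, Finset.sum_insert ha]
        exact (nrm_add_le _ _).trans (by gcongr)
    refine (hnsum _ _).trans ?_
    have h1θ : 0 ≤ 1 - θ := by linarith
    calc ∑ k ∈ Finset.range (n + 1), nrm ((θ ^ k * (1 - θ) ^ (n - k) * n.choose k) •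
          (R ^ (n - k)) ((LS S ^ k) y))
        ≤ ∑ k ∈ Finset.range (n + 1), (θ ^ k * (1 - θ) ^ (n - k) * n.choose k) *
          (2 * lam ^ k * nrm y) := by
          refine Finset.sum_le_sum (fun k _ => ?_)
          rw [nrm_smul _ (by positivity)]
          exact mul_le_mul_of_nonneg_left ((hRn _ _).trans (hPk k y hy)) (by positivity)
      _ = 2 * nrm y * ∑ k ∈ Finset.range (n + 1), (θ * lam) ^ k * (1 - θ) ^ (n - k) * n.choose k := by
          rw [Finset.mul_sum]
          refine Finset.sum_congr rfl (fun k _ => ?_)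
          rw [mul_pow]; ring
      _ = 2 * nrm y * (θ * lam + (1 - θ)) ^ n := by
          rw [add_pow]
      _ = 2 * (1 - θ / (2 * T)) ^ n * nrm y := by
          have : θ * lam + (1 - θ) = 1 - θ / (2 * T) := by rw [hlam]; ring
          rw [this]; ring
  obtain ⟨n, hn1, hn2⟩ : ∃ n : ℕ, 8 * T / θ ≤ n ∧ (n : ℝ) ≤ 8 * T / θ + 1 :=
    ⟨⌈8 * T / θ⌉₊, Nat.le_ceil _, (Nat.ceil_lt_add_one (by positivity)).le⟩
  obtain ⟨u, hu⟩ : ∃ u : ℝ, u = 1 / (Fintype.card G : ℝ) := ⟨_, rfl⟩
  have su : ∑ _y : G, u = 1 := by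
    have hc : (0 : ℝ) < Fintype.card G := by
      have : 0 < Fintype.card G := Fintype.card_pos
      positivity
    rw [Finset.sum_const, Finset.card_univ, nsmul_eq_mul, hu]; field_simp
  have hu0 : 0 ≤ u := by rw [hu]; positivity
  have hconst : ∀ k : ℕ, (LS S' ^ k) (fun _ => u) = fun _ => u := by
    intro k
    funext x
    rw [LS_pow_conv, ← Finset.mul_sum]
    have : ∑ y, law S' k (y⁻¹ * x) = 1 := by
      rw [← law_sum S' hS' k]
      exact Fintype.sum_equiv ((Equiv.inv G).trans (Equiv.mulRight x)) _ _ (fun y => rfl)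
    rw [this, mul_one]
  have hy0 : ∑ x, (law S' 0 - (fun _ => u : G → ℝ)) x = 0 := by
    simp only [Pi.sub_apply]
    rw [Finset.sum_sub_distrib, law_sum S' hS', su]; ring
  have hyn : nrm (law S' 0 - (fun _ => u : G → ℝ)) ≤ 2 := by
    refine (nrm_sub_le _ _).trans ?_
    have e1 : nrm (law S' 0) = 1 := by
      unfold nrm
      rw [← law_sum S' hS' 0]
      exact Finset.sum_congr rfl (fun g _ => abs_of_nonneg (law_nonneg _ _ _))
    have e2 : nrm (fun _ : G => u) = 1 := by
      unfold nrm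
      rw [← su]
      exact Finset.sum_congr rfl (fun g _ => abs_of_nonneg hu0)
    rw [e1, e2]; norm_num
  have hfin := hmain n _ hy0
  rw [map_sub, hconst, ← law_LS] at hfin
  have hpow : (1 - θ / (2 * T)) ^ n ≤ 1 / 16 := by
    have hb : θ / (2 * T) ≤ 1 := by
      rw [div_le_one (by positivity)]; linarith
    calc (1 - θ / (2 * T)) ^ n ≤ (Real.exp (-(θ / (2 * T)))) ^ n :=
          pow_le_pow_left₀ (by linarith) (Real.one_sub_le_exp_neg _) _
      _ = Real.exp ((n : ℝ) * (-(θ / (2 * T)))) := by rw [← Real.exp_nat_mul]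
      _ ≤ Real.exp (-4) := by
          apply Real.exp_le_exp.2
          have h8 : 8 * T ≤ n * θ := by rwa [div_le_iff₀ hθ0] at hn1
          have h9 : (n : ℝ) * (θ / (2 * T)) = n * θ / (2 * T) := by ring
          have h10 : 4 ≤ (n : ℝ) * (θ / (2 * T)) := by
            rw [h9, le_div_iff₀ (by positivity)]; linarith
          linarith
      _ ≤ 1 / 16 := by
          rw [Real.exp_neg, inv_eq_one_div]
          apply one_div_le_one_div_of_le (by norm_num)
          have h3 : (2 : ℝ) ≤ Real.exp 1 := by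
            have := Real.add_one_le_exp (1 : ℝ)
            linarith
          calc (16 : ℝ) = 2 ^ 4 := by norm_num
            _ ≤ (Real.exp 1) ^ 4 := pow_le_pow_left₀ (by norm_num) h3 4
            _ = Real.exp 4 := by
                rw [← Real.exp_nat_mul]; norm_num
  have hmem : n ∈ mixed S' := by
    show (1 / 2 : ℝ) * ∑ g, |law S' n g - 1 / (Fintype.card G : ℝ)| ≤ 1 / 4
    rw [← hu]
    have h5 : ∑ g, |law S' n g - u| = nrm (law S' n - fun _ => u) := rfl
    rw [h5]
    have h6 : 0 ≤ (1 - θ / (2 * T)) ^ n := by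
      apply pow_nonneg
      have hb : θ / (2 * T) ≤ 1 := by
        rw [div_le_one (by positivity)]; linarith
      linarith
    have h7 := nrm_nonneg (law S' 0 - fun _ => u)
    nlinarith
  have h1 : sInf (mixed S') ≤ n := Nat.sInf_le hmem
  have h2 : ((sInf (mixed S') : ℕ) : ℝ) ≤ n := by exact_mod_cast h1
  have h3 : 8 * T / θ ≤ 8 * C * T := by
    rw [div_le_iff₀ hθ0]
    nlinarith
  have h4 : (1 : ℝ) ≤ C * T := by nlinarith
  linarith

end gen

end Pool.Agent.H299.Slow
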