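import Pool.Agent.H299_Slow.Walk

set_option autoImplicit false

namespace Pool.Agent.H299.Slow

open Finset

section conc
variable {t m e q N : ℕ} [NeZero t] [NeZero m] [NeZero e] [NeZero q]

lemma step_eq (hA : q ^ N = m) (hK : e * 2 ^ N = m) (c : ℝ)
    (hc : c = ((SS : Finset (GG t m e q N)).card : ℝ)) (hc0 : c ≠ 0) (p : (GG t m e q N) → ℝ) :
    lazyStep SS p = PP (1 / 2 - 1 / c) (t * m / c) (m / (2 * c)) (m / (2 * c))
      (M fF) (M fA) (M fK) p := by
  have hA' : (q : ℝ) ^ N = m := by exact_mod_cast hA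
  have hK' : (e : ℝ) * 2 ^ N = m := by exact_mod_cast hK
  have hm : (m : ℝ) ≠ 0 := by exact_mod_cast NeZero.ne m
  have ht : (t : ℝ) ≠ 0 := by exact_mod_cast NeZero.ne t
  funext x
  rw [PP_apply]
  simp only [Pi.add_apply, Pi.smul_apply, smul_eq_mul, M_apply]
  unfold lazyStep
  rw [sum_inv SS SS_inv (fun s => p (x * s)), sum_SS, ← hc, mul_one]
  have c1 : (Fintype.card ((ZMod t × ZMod m) × Bool) : ℝ) = 2 * t * m := by
    simp [ZMod.card]; ring
  have c2 : (Fintype.card (Fin N → ZMod q) : ℝ) = m := by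
    rw [← hA']; simp [ZMod.card]
  have c3 : (Fintype.card (ZMod e × (Fin N → Bool)) : ℝ) = m := by
    rw [← hK']; simp [ZMod.card]
  rw [c1, c2, c3]
  field_simp
  ring

lemma law_eq (hA : q ^ N = m) (hK : e * 2 ^ N = m) (c : ℝ)
    (hc : c = ((SS : Finset (GG t m e q N)).card : ℝ)) (hc0 : c ≠ 0) (T : ℕ) :
    law (SS : Finset (GG t m e q N)) T = ((PP (1 / 2 - 1 / c) (t * m / c) (m / (2 * c)) (m / (2 * c))
      (M fF) (M fA) (M fK)) ^ T) (law SS 0) := by
  induction T with
  | zero => simp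
  | succ T ih =>
    rw [law_succ, pow_succ', Module.End.mul_apply, ← ih, step_eq hA hK c hc hc0]

lemma M_const {G H : Type} [Group G] [Fintype G] [Fintype H] [Nonempty H] (φ : H → G) (r : ℝ) :
    M φ (fun _ => r) = fun _ => r := by
  have hcH : (Fintype.card H : ℝ) ≠ 0 := by
    have : 0 < Fintype.card H := Fintype.card_pos
    positivity
  funext g
  rw [M_apply, Finset.sum_const, Finset.card_univ, nsmul_eq_mul]
  field_simp

theorem tv_upper (hA : q ^ N = m) (hK : e * 2 ^ N = m) (ht : 1 ≤ t) (hm : 2 ≤ m) :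
    (1 / 2 : ℝ) * ∑ g, |law (SS : Finset (GG t m e q N)) (400 * t) g - 1 / (Fintype.card (GG t m e q N) : ℝ)| ≤ 1 / 4 := by
  obtain ⟨c, hc⟩ : ∃ c : ℝ, c = ((SS : Finset (GG t m e q N)).card : ℝ) := ⟨_, rfl⟩
  have hcv : c = 2 * t * m + 2 * m - 2 := by rw [hc, card_SS hA hK]
  have ht' : (1 : ℝ) ≤ t := by exact_mod_cast ht
  have hm' : (2 : ℝ) ≤ m := by exact_mod_cast hm
  have htm : (m : ℝ) ≤ t * m := by nlinarith
  have hcpos : 0 < c := by rw [hcv]; nlinarith
  have hc0 : c ≠ 0 := hcpos.ne'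
  have hcle : c ≤ 4 * t * m := by rw [hcv]; nlinarith
  have hc2 : 2 ≤ c := by rw [hcv]; nlinarith
  set P := PP (G := (GG t m e q N)) (1 / 2 - 1 / c) (t * m / c) (m / (2 * c)) (m / (2 * c))
      (M fF) (M fA) (M fK) with hP
  have hPU : ∀ T : ℕ, (P ^ T) (fun _ => 1 / (Fintype.card (GG t m e q N) : ℝ)) =
      fun _ => 1 / (Fintype.card (GG t m e q N) : ℝ) := by
    intro T
    induction T with
    | zero => simp
    | succ T ih =>
      rw [pow_succ', Module.End.mul_apply, ih, hP, PP_apply, M_const, M_const, M_const]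
      funext g
      simp only [Pi.add_apply, Pi.smul_apply, smul_eq_mul]
      have : (1 / 2 - 1 / c) + t * m / c + m / (2 * c) + m / (2 * c) = 1 := by
        field_simp
        rw [hcv]; ring
      calc (1 / 2 - 1 / c) * (1 / (Fintype.card (GG t m e q N) : ℝ)) + t * m / c * (1 / (Fintype.card (GG t m e q N) : ℝ)) +
            m / (2 * c) * (1 / (Fintype.card (GG t m e q N) : ℝ)) + m / (2 * c) * (1 / (Fintype.card (GG t m e q N) : ℝ))
          = ((1 / 2 - 1 / c) + t * m / c + m / (2 * c) + m / (2 * c)) *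
            (1 / (Fintype.card (GG t m e q N) : ℝ)) := by ring
        _ = _ := by rw [this, one_mul]
  have hn : nrm (law (SS : Finset (GG t m e q N)) 0) ≤ 1 := by
    unfold nrm
    have : ∀ g, |law (SS : Finset (GG t m e q N)) 0 g| = law (SS : Finset (GG t m e q N)) 0 g :=
      fun g => abs_of_nonneg (law_nonneg _ _ _)
    simp only [this]
    exact (law_sum SS ⟨1, one_mem_SS⟩ 0).le
  have hup := upperGX (t := t) (m := m) (e := e) (q := q) (N := N) (1 / 2 - 1 / c) (t * m / c)
    (m / (2 * c))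
    (by rw [sub_nonneg]; exact one_div_le_one_div_of_le (by norm_num) hc2)
    (by positivity) (by positivity)
    (by field_simp; rw [hcv]; ring)
    (by
      rw [div_eq_mul_inv, mul_inv, div_eq_mul_inv]
      have : 0 < c⁻¹ := by positivity
      nlinarith)
    (400 * t) (law SS 0) hn (law_sum SS ⟨1, one_mem_SS⟩ 0)
  rw [map_sub] at hup
  have hup' : nrm (law (SS : Finset (GG t m e q N)) (400 * t) - fun _ => 1 / (Fintype.card (GG t m e q N) : ℝ)) ≤
      9 * (1 - m / (2 * c) / 10) ^ (400 * t) := by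
    rw [law_eq hA hK c hc hc0 (400 * t)]
    rw [← hP] at hup ⊢
    rw [hPU] at hup
    exact hup
  have hnrm : ∑ g, |law (SS : Finset (GG t m e q N)) (400 * t) g - 1 / (Fintype.card (GG t m e q N) : ℝ)| =
      nrm (law (SS : Finset (GG t m e q N)) (400 * t) - fun _ => 1 / (Fintype.card (GG t m e q N) : ℝ)) := rfl
  rw [hnrm]
  have hβ : 1 / (8 * t) ≤ m / (2 * c) := by
    rw [div_le_div_iff₀ (by positivity) (by positivity)]
    nlinarith
  have h1 : (1 - m / (2 * c) / 10) ^ (400 * t) ≤ Real.exp (-5) := by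
    have hb0 : (0 : ℝ) ≤ 1 - m / (2 * c) / 10 := by
      have : m / (2 * c) ≤ 1 := by
        rw [div_le_one (by positivity)]
        rw [hcv]; nlinarith
      linarith
    calc (1 - m / (2 * c) / 10) ^ (400 * t) ≤ (Real.exp (-(m / (2 * c) / 10))) ^ (400 * t) :=
          pow_le_pow_left₀ hb0 (Real.one_sub_le_exp_neg _) _
      _ = Real.exp (((400 * t : ℕ) : ℝ) * (-(m / (2 * c) / 10))) := by
          rw [← Real.exp_nat_mul]
      _ ≤ Real.exp (-5) := by
          apply Real.exp_le_exp.2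
          push_cast
          have h8 : 1 ≤ 8 * t * (m / (2 * c)) := by
            have := mul_le_mul_of_nonneg_left hβ (show (0 : ℝ) ≤ 8 * t by positivity)
            rwa [mul_one_div_cancel (by positivity)] at this
          nlinarith
  have h2 : Real.exp (-5) ≤ 1 / 32 := by
    rw [Real.exp_neg, inv_eq_one_div]
    apply one_div_le_one_div_of_le (by norm_num)
    have h3 : (2 : ℝ) ≤ Real.exp 1 := by
      have := Real.add_one_le_exp (1 : ℝ)
      linarith
    calc (32 : ℝ) = 2 ^ 5 := by norm_num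
      _ ≤ (Real.exp 1) ^ 5 := pow_le_pow_left₀ (by norm_num) h3 5
      _ = Real.exp 5 := by
          rw [← Real.exp_nat_mul]; norm_num
  linarith

end conc

end Pool.Agent.H299.Slow
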