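import Pool.Agent.H299_Slow.Lower
import Pool.Agent.H299_Slow.Upper

set_option autoImplicit false

namespace Pool.Agent.H299.Slow

open Finset

section tv
variable {G : Type} [Group G] [Fintype G]

lemma tv_test (p Φ : G → ℝ) (hp : ∑ g, p g = 1) (h : ∀ g, 0 ≤ Φ g ∧ Φ g ≤ 1) :
    (∑ g, Φ g) / (Fintype.card G : ℝ) - ∑ g, p g * Φ g ≤
      (1 / 2 : ℝ) * ∑ g, |p g - 1 / (Fintype.card G : ℝ)| := by
  have hc : (Fintype.card G : ℝ) ≠ 0 := by
    have : 0 < Fintype.card G := Fintype.card_pos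
    positivity
  have h0 : ∑ g : G, (1 / (Fintype.card G : ℝ) - p g) = 0 := by
    rw [Finset.sum_sub_distrib, hp, Finset.sum_const, Finset.card_univ, nsmul_eq_mul]
    field_simp
    ring
  have h1 : (∑ g, Φ g) / (Fintype.card G : ℝ) - ∑ g, p g * Φ g =
      ∑ g, (1 / (Fintype.card G : ℝ) - p g) * (Φ g - 1 / 2) := by
    have : ∀ g, (1 / (Fintype.card G : ℝ) - p g) * (Φ g - 1 / 2) =
        Φ g / (Fintype.card G : ℝ) - p g * Φ g - 1 / 2 * (1 / (Fintype.card G : ℝ) - p g) := by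
      intro g; ring
    simp only [this, Finset.sum_sub_distrib (s := univ) (f := fun g => Φ g / (Fintype.card G : ℝ) - p g * Φ g),
      ← Finset.mul_sum, h0, mul_zero, sub_zero]
    rw [Finset.sum_sub_distrib, Finset.sum_div]
  rw [h1, Finset.mul_sum]
  refine Finset.sum_le_sum (fun g _ => ?_)
  have h2 := h g
  calc (1 / (Fintype.card G : ℝ) - p g) * (Φ g - 1 / 2)
      ≤ |(1 / (Fintype.card G : ℝ) - p g) * (Φ g - 1 / 2)| := le_abs_self _
    _ = |p g - 1 / (Fintype.card G : ℝ)| * |Φ g - 1 / 2| := by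
        rw [abs_mul, abs_sub_comm]
    _ ≤ |p g - 1 / (Fintype.card G : ℝ)| * (1 / 2) := by
        gcongr
        rw [abs_le]
        constructor <;> linarith
    _ = _ := by ring

end tv

section conc
variable {t m e q N : ℕ} [NeZero t] [NeZero m] [NeZero e] [NeZero q]

lemma sum_u (f : (Fin N → ZMod q × ZMod q) → ℝ) :
    (∑ g : (GG t m e q N), f g.u) / (Fintype.card (GG t m e q N) : ℝ) =
      (∑ u, f u) / (Fintype.card (Fin N → ZMod q × ZMod q) : ℝ) := by
  have h1 : ∑ g : (GG t m e q N), f g.u =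
      ∑ x : ((ZMod t × ZMod m) × (ZMod e × Bool)) × ((Fin N → Bool) × (Fin N → ZMod q × ZMod q)),
        f x.2.2 :=
    Fintype.sum_equiv toProd _ _ (fun g => rfl)
  rw [h1, Fintype.card_congr (toProd (t := t) (m := m) (e := e) (q := q) (N := N)),
    Fintype.sum_prod_type]
  simp only [Fintype.sum_prod_type (f := fun x : (Fin N → Bool) × (Fin N → ZMod q × ZMod q) => f x.2),
    Finset.sum_const, Finset.card_univ, nsmul_eq_mul, Fintype.card_prod]
  have n1 : (Fintype.card (ZMod t) : ℝ) ≠ 0 := by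
    have : 0 < Fintype.card (ZMod t) := Fintype.card_pos
    positivity
  have n2 : (Fintype.card (ZMod m) : ℝ) ≠ 0 := by
    have : 0 < Fintype.card (ZMod m) := Fintype.card_pos
    positivity
  have n3 : (Fintype.card (ZMod e) : ℝ) ≠ 0 := by
    have : 0 < Fintype.card (ZMod e) := Fintype.card_pos
    positivity
  have n4 : (Fintype.card Bool : ℝ) ≠ 0 := by simp
  have n5 : (Fintype.card (Fin N → Bool) : ℝ) ≠ 0 := by
    have : 0 < Fintype.card (Fin N → Bool) := Fintype.card_pos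
    positivity
  have n6 : (Fintype.card (Fin N → ZMod q × ZMod q) : ℝ) ≠ 0 := by
    have : 0 < Fintype.card (Fin N → ZMod q × ZMod q) := Fintype.card_pos
    positivity
  push_cast
  field_simp

lemma avg_FA (hq : 8 * N ≤ q) (hq1 : 1 ≤ q) :
    7 / 8 ≤ (∑ g : (GG t m e q N), FA 1 g) / (Fintype.card (GG t m e q N) : ℝ) := by
  have h1 := sum_u (t := t) (m := m) (e := e) (q := q) (N := N)
    (fun u => ∏ i, (1 - (1 / 2 : ℝ) * (z0 (u i).1 + z0 (u i).2)))
  have h2 : ∑ g : (GG t m e q N), FA 1 g =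
      ∑ g : (GG t m e q N), (fun u => ∏ i, (1 - (1 / 2 : ℝ) * (z0 (u i).1 + z0 (u i).2))) g.u := rfl
  rw [h2, h1, pisum (fun (_ : Fin N) (x : ZMod q × ZMod q) => (1 - (1 / 2 : ℝ) * (z0 x.1 + z0 x.2)))]
  have hq0 : (1 : ℝ) ≤ q := by exact_mod_cast hq1
  have h3 : ∑ x : ZMod q × ZMod q, (1 - (1 / 2 : ℝ) * (z0 x.1 + z0 x.2)) = q * q - q := by
    rw [Fintype.sum_prod_type]
    simp only [Finset.sum_sub_distrib, ← Finset.mul_sum, Finset.sum_add_distrib, Finset.sum_const,
      Finset.card_univ, ZMod.card, nsmul_eq_mul, mul_one, sum_z0]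
    ring
  rw [h3, Finset.prod_const, Finset.card_univ, Fintype.card_fin]
  have h4 : (Fintype.card (Fin N → ZMod q × ZMod q) : ℝ) = (q * q) ^ N := by
    simp [ZMod.card]
  rw [h4, ← div_pow]
  have h5 : ((q : ℝ) * q - q) / (q * q) = 1 + (-(1 / q)) := by
    field_simp
    ring
  rw [h5]
  have h6 : (1 / (q : ℝ)) ≤ 1 := by
    rw [div_le_one (by linarith)]; exact hq0
  have h7 := one_add_mul_le_pow (a := -(1 / (q : ℝ))) (by linarith) N
  have h8 : (8 : ℝ) * N ≤ q := by exact_mod_cast hq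
  have h9 : (N : ℝ) * (1 / q) ≤ 1 / 8 := by
    rw [mul_one_div, div_le_div_iff₀ (by linarith) (by norm_num)]
    linarith
  linarith

theorem tv_lower (hA : q ^ N = m) (hK : e * 2 ^ N = m) (hm : 2 ≤ m) (K0 : ℕ) (hK1 : 1 ≤ K0)
    (htK : K0 ≤ t) (hN : N = 4 * 2 ^ K0) (hq : 8 * N ≤ q) (T : ℕ)
    (hT : (1 / 2 : ℝ) * ∑ g, |law (SS' : Finset (GG t m e q N)) T g - 1 / (Fintype.card (GG t m e q N) : ℝ)| ≤ 1 / 4) :
    ((t : ℝ) * K0) ≤ T := by
  have ht1 : (1 : ℝ) ≤ t := by exact_mod_cast (hK1.trans htK)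
  have hm' : (2 : ℝ) ≤ m := by exact_mod_cast hm
  have hK' : (1 : ℝ) ≤ K0 := by exact_mod_cast hK1
  have htK' : (K0 : ℝ) ≤ t := by exact_mod_cast htK
  obtain ⟨s, hs⟩ : ∃ s : ℝ, s = 3 * t * m + m - t - 1 := ⟨_, rfl⟩
  have hmt : (0 : ℝ) ≤ t * m - t - 1 := by nlinarith
  have hs2 : 2 * t * m ≤ s := by rw [hs]; nlinarith
  have hs0 : 0 < s := by nlinarith
  obtain ⟨c2, hc2⟩ : ∃ c2 : ℝ, c2 = m / (2 * s) := ⟨_, rfl⟩
  have hc2p : 0 ≤ c2 := by rw [hc2]; positivity
  have hc2t : c2 ≤ 1 / (4 * t) := by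
    rw [hc2, div_le_div_iff₀ (by positivity) (by positivity)]
    nlinarith
  have hc21 : c2 ≤ 1 := hc2t.trans (by rw [div_le_one (by positivity)]; linarith)
  obtain ⟨ρ, hρ⟩ : ∃ ρ : ℝ, ρ = 1 / K0 + 1 / t := ⟨_, rfl⟩
  have hρ0 : 0 ≤ ρ := by rw [hρ]; positivity
  have hρ2 : ρ ≤ 2 / K0 := by
    rw [hρ]
    have : (1 : ℝ) / t ≤ 1 / K0 := one_div_le_one_div_of_le (by linarith) htK'
    have h2 : (2 : ℝ) / K0 = 1 / K0 + 1 / K0 := by ring
    linarith
  -- base values
  have hbase : ∀ k : ℕ, (1 - (1 / 2 : ℝ) ^ k) ^ N ≤ 1 / 16 + k / K0 := by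
    intro k
    have h01 : (0 : ℝ) ≤ 1 - (1 / 2) ^ k := by
      have : (1 / 2 : ℝ) ^ k ≤ 1 := pow_le_one₀ (by norm_num) (by norm_num)
      linarith
    by_cases hk : K0 ≤ k
    · have h1 : (1 - (1 / 2 : ℝ) ^ k) ^ N ≤ 1 :=
        pow_le_one₀ h01 (by have : (0 : ℝ) ≤ (1 / 2) ^ k := by positivity
                            linarith)
      have h2 : (1 : ℝ) ≤ k / K0 := by
        rw [le_div_iff₀ (by linarith)]
        have : (K0 : ℝ) ≤ k := by exact_mod_cast hk
        linarith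
      linarith
    · push_neg at hk
      have h1 : (1 / 2 : ℝ) ^ K0 ≤ (1 / 2) ^ k :=
        pow_le_pow_of_le_one (by norm_num) (by norm_num) hk.le
      have h2 : (1 - (1 / 2 : ℝ) ^ k) ^ N ≤ 1 / 16 := by
        calc (1 - (1 / 2 : ℝ) ^ k) ^ N ≤ (Real.exp (-(1 / 2) ^ K0)) ^ N := by
              apply pow_le_pow_left₀ h01
              have := Real.one_sub_le_exp_neg ((1 / 2 : ℝ) ^ K0)
              linarith
          _ = Real.exp (-4) := by
              rw [← Real.exp_nat_mul]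
              congr 1
              rw [hN]
              push_cast
              rw [one_div, inv_pow]
              field_simp
          _ ≤ 1 / 16 := by
              rw [Real.exp_neg, inv_eq_one_div]
              apply one_div_le_one_div_of_le (by norm_num)
              have h3 : (2 : ℝ) ≤ Real.exp 1 := by
                have := Real.add_one_le_exp (1 : ℝ)
                linarith
              calc (16 : ℝ) = 2 ^ 4 := by norm_num
                _ ≤ (Real.exp 1) ^ 4 := pow_le_pow_left₀ (by norm_num) h3 4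
                _ = Real.exp 4 := by
                    rw [← Real.exp_nat_mul]; norm_num
      have h3 : (0 : ℝ) ≤ k / K0 := by positivity
      linarith
  have h1one : ∀ a : ℝ, FA a (1 : (GG t m e q N)) = (1 - a) ^ N ∧ GA a (1 : (GG t m e q N)) = (1 - a / 2) ^ N ∧
      GB a (1 : (GG t m e q N)) = (1 - a / 2) ^ N := by
    intro a
    refine ⟨?_, ?_, ?_⟩
    · unfold FA
      have : ∀ i : Fin N, (1 - (a / 2) * (z0 ((1 : (GG t m e q N)).u i).1 + z0 ((1 : (GG t m e q N)).u i).2)) = 1 - a := by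
        intro i
        simp only [one_u, z0, Prod.fst_zero, Prod.snd_zero, if_true]
        ring
      simp only [this, Finset.prod_const, Finset.card_univ, Fintype.card_fin]
    · unfold GA; simp [z0]
    · unfold GB; simp [z0]
  have main : ∀ T : ℕ,
      (∀ k : ℕ, EE (t := t) (m := m) (e := e) (q := q) (N := N) T (FA ((1 / 2) ^ k)) ≤
        1 / 16 + k / K0 + c2 * ρ * T) ∧
      (∀ k : ℕ, EE (t := t) (m := m) (e := e) (q := q) (N := N) T (GA ((1 / 2) ^ k)) ≤
        1 / 16 + k / K0 + c2 * ρ * T + ρ) ∧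
      (∀ k : ℕ, EE (t := t) (m := m) (e := e) (q := q) (N := N) T (GB ((1 / 2) ^ k)) ≤
        1 / 16 + k / K0 + c2 * ρ * T + ρ) := by
    intro T
    induction T with
    | zero =>
      have hG : ∀ k : ℕ, (1 - (1 / 2 : ℝ) ^ k / 2) ^ N ≤ 1 / 16 + k / K0 + ρ := by
        intro k
        have h1 := hbase (k + 1)
        have h2 : (1 / 2 : ℝ) ^ (k + 1) = (1 / 2) ^ k / 2 := by rw [pow_succ]; ring
        rw [h2] at h1
        have h3 : (((k + 1 : ℕ) : ℝ)) / K0 = k / K0 + 1 / K0 := by push_cast; ring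
        rw [h3] at h1
        have h4 : (0 : ℝ) ≤ 1 / t := by positivity
        rw [hρ]; linarith
      refine ⟨?_, ?_, ?_⟩
      · intro k
        rw [EE_zero, (h1one _).1]
        have := hbase k
        simpa using this
      · intro k
        rw [EE_zero, (h1one _).2.1]
        have := hG k
        simpa using this
      · intro k
        rw [EE_zero, (h1one _).2.2]
        have := hG k
        simpa using this
    | succ T ih =>
      obtain ⟨ihF, ihA, ihB⟩ := ih
      have hk01 : ∀ k : ℕ, (0 : ℝ) ≤ (1 / 2) ^ k ∧ (1 / 2 : ℝ) ^ k ≤ 1 := fun k =>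
        ⟨by positivity, pow_le_one₀ (by norm_num) (by norm_num)⟩
      have hGG : ∀ k : ℕ, EE (t := t) (m := m) (e := e) (q := q) (N := N) (T + 1) (GA ((1 / 2) ^ k)) ≤
          1 / 16 + k / K0 + c2 * ρ * (T + 1 : ℕ) + ρ ∧
          EE (t := t) (m := m) (e := e) (q := q) (N := N) (T + 1) (GB ((1 / 2) ^ k)) ≤
          1 / 16 + k / K0 + c2 * ρ * (T + 1 : ℕ) + ρ := by
        intro k
        have hF1 : EE (t := t) (m := m) (e := e) (q := q) (N := N) T (FA ((1 / 2) ^ k / 2)) ≤
            1 / 16 + (k / K0 + 1 / K0) + c2 * ρ * T := by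
          have := ihF (k + 1)
          have h2 : (1 / 2 : ℝ) ^ (k + 1) = (1 / 2) ^ k / 2 := by rw [pow_succ]; ring
          rw [h2] at this
          have h3 : (((k + 1 : ℕ) : ℝ)) / K0 = k / K0 + 1 / K0 := by push_cast; ring
          rw [h3] at this
          exact this
        have hst := step_G hA hK s hs hs0 hmt ((1 / 2) ^ k) (hk01 k).1 (hk01 k).2 T _ _
          (ihA k) (ihB k) hF1
        have hX : (0 : ℝ) ≤ 1 / 16 + k / K0 + c2 * ρ * T := by positivity
        have hle : (1 / 16 + k / K0 + c2 * ρ * T + ρ) / 2 +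
            ((2 * t * m - t - 1) * (1 / 16 + k / K0 + c2 * ρ * T + ρ) + m +
              t * m * (1 / 16 + (k / K0 + 1 / K0) + c2 * ρ * T)) / (2 * s) ≤
            1 / 16 + k / K0 + c2 * ρ * (T + 1 : ℕ) + ρ := by
          obtain ⟨X, hXd⟩ : ∃ X : ℝ, X = 1 / 16 + k / K0 + c2 * ρ * T := ⟨_, rfl⟩
          have e1 : (1 / 16 + (k / K0 + 1 / K0) + c2 * ρ * T : ℝ) = X + 1 / K0 := by rw [hXd]; ring
          have e2 : (1 / 16 + k / K0 + c2 * ρ * (T + 1 : ℕ) + ρ : ℝ) = X + c2 * ρ + ρ := by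
            rw [hXd]; push_cast; ring
          rw [e1, e2, ← hXd]
          rw [← hXd] at hX
          have e3 : t * m * ρ = t * m * (1 / K0) + m := by
            rw [hρ]; field_simp
          have e4 : (2 * t * m - t - 1) * (X + ρ) + m + t * m * (X + 1 / K0) ≤ s * (X + ρ) := by
            have : s * (X + ρ) - ((2 * t * m - t - 1) * (X + ρ) + m + t * m * (X + 1 / K0)) =
                m * X + m * ρ + (t * m * ρ - t * m * (1 / K0) - m) := by
              rw [hs]; ring
            have h5 : (0 : ℝ) ≤ m * X + m * ρ := by positivity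
            linarith
          have e5 : ((2 * t * m - t - 1) * (X + ρ) + m + t * m * (X + 1 / K0)) / (2 * s) ≤
              (X + ρ) / 2 := by
            rw [div_le_div_iff₀ (by positivity) (by norm_num)]
            nlinarith
          have e6 : 0 ≤ c2 * ρ := mul_nonneg hc2p hρ0
          linarith
        exact ⟨hst.1.trans hle, hst.2.trans hle⟩
      refine ⟨?_, fun k => (hGG k).1, fun k => (hGG k).2⟩
      intro k
      have h1 := step_FA hA hK s hs hs0 ((1 / 2) ^ k) (hk01 k).1 (hk01 k).2 T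
      rw [← hc2] at h1
      refine h1.trans ?_
      have h2 : (0 : ℝ) ≤ 1 - c2 := by linarith
      calc _ ≤ (1 - c2) * (1 / 16 + k / K0 + c2 * ρ * T) +
            c2 * (1 / 16 + k / K0 + c2 * ρ * T + ρ) := by
              gcongr
              · exact ihF k
              · exact ihA k
        _ = _ := by push_cast; ring
  have hfin := (main T).1 0
  have hq1 : 1 ≤ q := by
    have : 0 < 2 ^ K0 := by positivity
    omega
  have havg := avg_FA (t := t) (m := m) (e := e) (q := q) (N := N) hq hq1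
  have htest := tv_test (law (SS' : Finset (GG t m e q N)) T) (FA 1)
    (law_sum _ SS'_nonempty T) (fun g => FA01 1 (by norm_num) (by norm_num) g)
  have hEE : EE (t := t) (m := m) (e := e) (q := q) (N := N) T (FA 1) =
      ∑ g, law (SS' : Finset (GG t m e q N)) T g * FA 1 g := rfl
  rw [pow_zero, hEE] at hfin
  have h9 : 9 / 16 ≤ c2 * ρ * T := by
    have : ((0 : ℕ) : ℝ) / K0 = 0 := by simp
    rw [this] at hfin
    linarith
  have h10 : c2 * ρ ≤ 1 / (4 * t) * (2 / K0) := mul_le_mul hc2t hρ2 hρ0 (by positivity)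
  have h11 : c2 * ρ * T ≤ 1 / (4 * t) * (2 / K0) * T :=
    mul_le_mul_of_nonneg_right h10 (by positivity)
  have h12 : (9 / 16 : ℝ) ≤ 1 / (4 * t) * (2 / K0) * T := h9.trans h11
  have h13 : 1 / (4 * (t : ℝ)) * (2 / K0) * T = T / (2 * (t * K0)) := by
    field_simp
    ring
  rw [h13, le_div_iff₀ (by positivity)] at h12
  nlinarith [mul_pos (show (0 : ℝ) < t by linarith) (show (0 : ℝ) < K0 by linarith)]

end conc

end Pool.Agent.H299.Slow
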