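import Mathlib

set_option autoImplicit false

namespace Pool.Agent.H299.Slow

open Finset

/-- swap the two coordinates if the flag is on -/
def sw {α : Type} (b : Bool) (p : α × α) : α × α := if b then (p.2, p.1) else p

section sw
variable {α : Type}
@[simp] lemma sw_false (p : α × α) : sw false p = p := rfl
@[simp] lemma sw_true (p : α × α) : sw true p = (p.2, p.1) := rfl
lemma sw_sw (a b : Bool) (p : α × α) : sw a (sw b p) = sw (xor b a) p := by
  cases a <;> cases b <;> simp
lemma sw_add [Add α] (a : Bool) (p r : α × α) : sw a (p + r) = sw a p + sw a r := by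
  cases a <;> rfl
lemma sw_neg [Neg α] (a : Bool) (p : α × α) : sw a (-p) = - sw a p := by
  cases a <;> rfl
@[simp] lemma sw_zero [Zero α] (a : Bool) : sw a (0 : α × α) = 0 := by
  cases a <;> rfl
end sw

/-- The group: central part `ZMod t × ZMod m × ZMod e × ℤ/2`, times the wreath type group
`(ZMod q × ZMod q)^N ⋊ (ℤ/2)^N`. -/
@[ext] structure GG (t m e q N : ℕ) where
  l1 : ZMod t
  l2 : ZMod m
  e : ZMod e
  z : Bool
  k : Fin N → Bool
  u : Fin N → ZMod q × ZMod q

variable {t m e q N : ℕ}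

instance : Mul (GG t m e q N) :=
  ⟨fun a b => ⟨a.l1 + b.l1, a.l2 + b.l2, a.e + b.e, xor a.z b.z, fun i => xor (a.k i) (b.k i),
    fun i => sw (b.k i) (a.u i) + b.u i⟩⟩
instance : One (GG t m e q N) := ⟨⟨0, 0, 0, false, fun _ => false, fun _ => 0⟩⟩
instance : Inv (GG t m e q N) :=
  ⟨fun a => ⟨-a.l1, -a.l2, -a.e, a.z, a.k, fun i => - sw (a.k i) (a.u i)⟩⟩

@[simp] lemma mul_l1 (a b : GG t m e q N) : (a * b).l1 = a.l1 + b.l1 := rfl
@[simp] lemma mul_l2 (a b : GG t m e q N) : (a * b).l2 = a.l2 + b.l2 := rfl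
@[simp] lemma mul_e (a b : GG t m e q N) : (a * b).e = a.e + b.e := rfl
@[simp] lemma mul_z (a b : GG t m e q N) : (a * b).z = xor a.z b.z := rfl
@[simp] lemma mul_k (a b : GG t m e q N) (i : Fin N) : (a * b).k i = xor (a.k i) (b.k i) := rfl
@[simp] lemma mul_u (a b : GG t m e q N) (i : Fin N) :
    (a * b).u i = sw (b.k i) (a.u i) + b.u i := rfl
@[simp] lemma one_l1 : (1 : GG t m e q N).l1 = 0 := rfl
@[simp] lemma one_l2 : (1 : GG t m e q N).l2 = 0 := rfl
@[simp] lemma one_e : (1 : GG t m e q N).e = 0 := rfl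
@[simp] lemma one_z : (1 : GG t m e q N).z = false := rfl
@[simp] lemma one_k (i : Fin N) : (1 : GG t m e q N).k i = false := rfl
@[simp] lemma one_u (i : Fin N) : (1 : GG t m e q N).u i = 0 := rfl
@[simp] lemma inv_l1 (a : GG t m e q N) : (a⁻¹).l1 = -a.l1 := rfl
@[simp] lemma inv_l2 (a : GG t m e q N) : (a⁻¹).l2 = -a.l2 := rfl
@[simp] lemma inv_e (a : GG t m e q N) : (a⁻¹).e = -a.e := rfl
@[simp] lemma inv_z (a : GG t m e q N) : (a⁻¹).z = a.z := rfl
@[simp] lemma inv_k (a : GG t m e q N) (i : Fin N) : (a⁻¹).k i = a.k i := rfl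
@[simp] lemma inv_u (a : GG t m e q N) (i : Fin N) : (a⁻¹).u i = - sw (a.k i) (a.u i) := rfl

lemma gext {a b : GG t m e q N} (h1 : a.l1 = b.l1) (h2 : a.l2 = b.l2) (h3 : a.e = b.e)
    (h4 : a.z = b.z) (h5 : ∀ i, a.k i = b.k i) (h6 : ∀ i, a.u i = b.u i) : a = b :=
  GG.ext h1 h2 h3 h4 (funext h5) (funext h6)

instance : Group (GG t m e q N) :=
  Group.ofLeftAxioms
    (by
      intro a b c
      apply gext
      · simp [add_assoc]
      · simp [add_assoc]
      · simp [add_assoc]
      · simp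
      · intro i; simp
      · intro i
        simp only [mul_u, mul_k, sw_add, sw_sw, add_assoc])
    (by
      intro a
      apply gext <;> simp)
    (by
      intro a
      apply gext
      · simp
      · simp
      · simp
      · simp
      · intro i; simp
      · intro i
        simp only [mul_u, inv_u, sw_neg, sw_sw, one_u]
        cases a.k i <;> simp)

def toProd : GG t m e q N ≃
    ((ZMod t × ZMod m) × (ZMod e × Bool)) × ((Fin N → Bool) × (Fin N → ZMod q × ZMod q)) where
  toFun a := (((a.l1, a.l2), (a.e, a.z)), (a.k, a.u))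
  invFun x := ⟨x.1.1.1, x.1.1.2, x.1.2.1, x.1.2.2, x.2.1, x.2.2⟩
  left_inv a := rfl
  right_inv x := rfl

instance [NeZero t] [NeZero m] [NeZero e] [NeZero q] : Fintype (GG t m e q N) :=
  Fintype.ofEquiv _ toProd.symm

noncomputable instance : DecidableEq (GG t m e q N) := Classical.decEq _

lemma card_GG [NeZero t] [NeZero m] [NeZero e] [NeZero q] :
    Fintype.card (GG t m e q N) = t * m * (e * 2) * (2 ^ N * (q * q) ^ N) := by
  rw [Fintype.card_congr toProd]
  simp [Fintype.card_prod, ZMod.card]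

/-! the families of elements -/
def fL (x : ZMod t × ZMod m) : GG t m e q N := ⟨x.1, x.2, 0, false, fun _ => false, fun _ => 0⟩
def fH (z : Bool) : GG t m e q N := ⟨0, 0, 0, z, fun _ => z, fun _ => 0⟩
def fF (x : (ZMod t × ZMod m) × Bool) : GG t m e q N := ⟨x.1.1, x.1.2, 0, x.2, fun _ => x.2, fun _ => 0⟩
def fA (x : Fin N → ZMod q) : GG t m e q N := ⟨0, 0, 0, false, fun _ => false, fun i => (x i, 0)⟩
def fA' (x : Fin N → ZMod q) : GG t m e q N := ⟨0, 0, 0, false, fun _ => false, fun i => (0, x i)⟩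
def fV (x : Fin N → ZMod q × ZMod q) : GG t m e q N := ⟨0, 0, 0, false, fun _ => false, x⟩
def fK (x : ZMod e × (Fin N → Bool)) : GG t m e q N := ⟨0, 0, x.1, false, x.2, fun _ => 0⟩
def fR (x : ZMod t × (ZMod e × (Fin N → Bool))) : GG t m e q N :=
  ⟨x.1, 0, x.2.1, false, x.2.2, fun _ => 0⟩

end Pool.Agent.H299.Slow
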