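import Pool.Agent.H299_Slow.Walk

set_option autoImplicit false

namespace Pool.Agent.H299.Slow

open Finset

section conc
variable {t m e q N : ℕ} [NeZero t] [NeZero m] [NeZero e] [NeZero q]

/-- indicator of zero -/
noncomputable def z0 (x : ZMod q) : ℝ := if x = 0 then 1 else 0
lemma z0_nonneg (x : ZMod q) : 0 ≤ z0 x := by unfold z0; split_ifs <;> norm_num
lemma z0_le (x : ZMod q) : z0 x ≤ 1 := by unfold z0; split_ifs <;> norm_num
lemma sum_z0 : ∑ x : ZMod q, z0 x = 1 := by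
  unfold z0
  rw [Finset.sum_ite_eq']
  simp
lemma sum_z0_add (y : ZMod q) : ∑ x : ZMod q, z0 (y + x) = 1 := by
  rw [← sum_z0 (q := q)]
  exact Fintype.sum_equiv (Equiv.addLeft y) _ _ (fun x => rfl)

noncomputable def FA (a : ℝ) (g : GG t m e q N) : ℝ :=
  ∏ i, (1 - (a / 2) * (z0 (g.u i).1 + z0 (g.u i).2))
noncomputable def GA (a : ℝ) (g : GG t m e q N) : ℝ := ∏ i, (1 - (a / 2) * z0 (g.u i).2)
noncomputable def GB (a : ℝ) (g : GG t m e q N) : ℝ := ∏ i, (1 - (a / 2) * z0 (g.u i).1)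

lemma prod01 {ι : Type} [Fintype ι] (f : ι → ℝ) (h : ∀ i, 0 ≤ f i ∧ f i ≤ 1) :
    0 ≤ ∏ i, f i ∧ ∏ i, f i ≤ 1 :=
  ⟨Finset.prod_nonneg (fun i _ => (h i).1), Finset.prod_le_one (fun i _ => (h i).1) (fun i _ => (h i).2)⟩

lemma FA01 (a : ℝ) (h0 : 0 ≤ a) (h1 : a ≤ 1) (g : (GG t m e q N)) : 0 ≤ FA a g ∧ FA a g ≤ 1 := by
  apply prod01
  intro i
  have h2 := z0_nonneg (g.u i).1
  have h3 := z0_nonneg (g.u i).2
  have h4 := z0_le (g.u i).1
  have h5 := z0_le (g.u i).2
  constructor <;> nlinarith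
lemma GA01 (a : ℝ) (h0 : 0 ≤ a) (h1 : a ≤ 1) (g : (GG t m e q N)) : 0 ≤ GA a g ∧ GA a g ≤ 1 := by
  apply prod01
  intro i
  have h3 := z0_nonneg (g.u i).2
  have h5 := z0_le (g.u i).2
  constructor <;> nlinarith
lemma GB01 (a : ℝ) (h0 : 0 ≤ a) (h1 : a ≤ 1) (g : (GG t m e q N)) : 0 ≤ GB a g ∧ GB a g ≤ 1 := by
  apply prod01
  intro i
  have h3 := z0_nonneg (g.u i).1
  have h5 := z0_le (g.u i).1
  constructor <;> nlinarith

lemma FA_fF (a : ℝ) (g : (GG t m e q N)) (x) : FA a (g * fF x) = FA a g := by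
  unfold FA
  refine Finset.prod_congr rfl (fun i _ => ?_)
  obtain ⟨l, c⟩ := x
  cases c <;> simp [fF, add_comm]
lemma FA_fR (a : ℝ) (g : (GG t m e q N)) (x) : FA a (g * fR x) = FA a g := by
  unfold FA
  refine Finset.prod_congr rfl (fun i _ => ?_)
  obtain ⟨l, b, c⟩ := x
  simp only [mul_u, fR, add_zero]
  cases c i <;> simp [add_comm]
lemma FA_f1 (a : ℝ) (g : (GG t m e q N)) (x) : FA a (g * f1 x) = FA a g := by
  unfold FA
  refine Finset.prod_congr rfl (fun i _ => ?_)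
  simp [f1]
lemma GA_f1 (a : ℝ) (g : (GG t m e q N)) (x) : GA a (g * f1 x) = GA a g := by
  unfold GA
  refine Finset.prod_congr rfl (fun i _ => ?_)
  simp [f1]
lemma GB_f1 (a : ℝ) (g : (GG t m e q N)) (x) : GB a (g * f1 x) = GB a g := by
  unfold GB
  refine Finset.prod_congr rfl (fun i _ => ?_)
  simp [f1]

lemma pisum {ι α : Type} [Fintype ι] [DecidableEq ι] [Fintype α] (f : ι → α → ℝ) :
    ∑ x : ι → α, ∏ i, f i (x i) = ∏ i, ∑ j, f i j := by
  rw [Finset.prod_univ_sum, Fintype.piFinset_univ]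

lemma FA_fA (hA : q ^ N = m) (a : ℝ) (h0 : 0 ≤ a) (h1 : a ≤ 1) (g : (GG t m e q N)) :
    ∑ x, FA a (g * fA x) ≤ m * GA a g := by
  have hA' : (m : ℝ) = ∏ _i : Fin N, (q : ℝ) := by
    rw [← hA]; simp
  have e1 : ∑ x, FA a (g * fA x) =
      ∑ x : Fin N → ZMod q, ∏ i, (1 - (a / 2) * (z0 ((g.u i).1 + x i) + z0 (g.u i).2)) := by
    refine Finset.sum_congr rfl (fun x _ => ?_)
    unfold FA
    refine Finset.prod_congr rfl (fun i _ => ?_)
    simp [fA]
  rw [e1, pisum (fun i (x : ZMod q) => (1 - (a / 2) * (z0 ((g.u i).1 + x) + z0 (g.u i).2)))]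
  unfold GA
  rw [hA', ← Finset.prod_mul_distrib]
  refine Finset.prod_le_prod (fun i _ => ?_) (fun i _ => ?_)
  · refine Finset.sum_nonneg (fun x _ => ?_)
    have h2 := z0_nonneg ((g.u i).1 + x)
    have h3 := z0_nonneg (g.u i).2
    have h4 := z0_le ((g.u i).1 + x)
    have h5 := z0_le (g.u i).2
    nlinarith
  · rw [Finset.sum_sub_distrib, ← Finset.mul_sum, Finset.sum_add_distrib, sum_z0_add]
    simp only [Finset.sum_const, Finset.card_univ, ZMod.card, nsmul_eq_mul, mul_one]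
    nlinarith

lemma GA_fA (hA : q ^ N = m) (a : ℝ) (h0 : 0 ≤ a) (h1 : a ≤ 1) (g : (GG t m e q N)) :
    ∑ x, GA a (g * fA x) ≤ m := by
  have hA' : (q : ℝ) ^ N = m := by exact_mod_cast hA
  calc ∑ x, GA a (g * fA x) ≤ ∑ _x : Fin N → ZMod q, (1 : ℝ) :=
        Finset.sum_le_sum (fun x _ => (GA01 a h0 h1 _).2)
    _ = m := by simp [ZMod.card, hA']
lemma GB_fA (hA : q ^ N = m) (a : ℝ) (h0 : 0 ≤ a) (h1 : a ≤ 1) (g : (GG t m e q N)) :
    ∑ x, GB a (g * fA x) ≤ m := by
  have hA' : (q : ℝ) ^ N = m := by exact_mod_cast hA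
  calc ∑ x, GB a (g * fA x) ≤ ∑ _x : Fin N → ZMod q, (1 : ℝ) :=
        Finset.sum_le_sum (fun x _ => (GB01 a h0 h1 _).2)
    _ = m := by simp [ZMod.card, hA']

lemma GA_fF (a : ℝ) (g : (GG t m e q N)) : ∑ x, GA a (g * fF x) = t * m * (GA a g + GB a g) := by
  rw [Fintype.sum_prod_type]
  have h1 : ∀ l, (GA a (g * fF (l, true)) = GB a g ∧ GA a (g * fF (l, false)) = GA a g) := by
    intro l
    constructor
    · unfold GA GB
      refine Finset.prod_congr rfl (fun i _ => ?_)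
      simp [fF]
    · unfold GA
      refine Finset.prod_congr rfl (fun i _ => ?_)
      simp [fF]
  simp only [Fintype.sum_bool, (h1 _).1, (h1 _).2, Finset.sum_const, Finset.card_univ,
    Fintype.card_prod, ZMod.card, nsmul_eq_mul]
  push_cast; ring
lemma GB_fF (a : ℝ) (g : (GG t m e q N)) : ∑ x, GB a (g * fF x) = t * m * (GA a g + GB a g) := by
  rw [Fintype.sum_prod_type]
  have h1 : ∀ l, (GB a (g * fF (l, true)) = GA a g ∧ GB a (g * fF (l, false)) = GB a g) := by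
    intro l
    constructor
    · unfold GA GB
      refine Finset.prod_congr rfl (fun i _ => ?_)
      simp [fF]
    · unfold GB
      refine Finset.prod_congr rfl (fun i _ => ?_)
      simp [fF]
  simp only [Fintype.sum_bool, (h1 _).1, (h1 _).2, Finset.sum_const, Finset.card_univ,
    Fintype.card_prod, ZMod.card, nsmul_eq_mul]
  push_cast; ring

lemma GA_fR (hK : e * 2 ^ N = m) (a : ℝ) (g : (GG t m e q N)) :
    ∑ x, GA a (g * fR x) = t * m * FA (a / 2) g := by
  have hK' : (m : ℝ) = e * 2 ^ N := by exact_mod_cast hK.symm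
  rw [Fintype.sum_prod_type]
  simp only [Fintype.sum_prod_type]
  have h1 : ∀ (l : ZMod t) (b : ZMod e), ∑ κ : Fin N → Bool, GA a (g * fR (l, b, κ)) =
      2 ^ N * FA (a / 2) g := by
    intro l b
    have e1 : ∀ κ : Fin N → Bool, GA a (g * fR (l, b, κ)) =
        ∏ i, (1 - (a / 2) * z0 (sw (κ i) (g.u i)).2) := by
      intro κ
      unfold GA
      refine Finset.prod_congr rfl (fun i _ => ?_)
      simp [fR]
    simp only [e1]
    rw [pisum (fun i (x : Bool) => (1 - (a / 2) * z0 (sw x (g.u i)).2))]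
    unfold FA
    have h2 : (2 : ℝ) ^ N = ∏ _i : Fin N, (2 : ℝ) := by simp
    rw [h2, ← Finset.prod_mul_distrib]
    refine Finset.prod_congr rfl (fun i _ => ?_)
    simp only [Fintype.sum_bool, sw_true, sw_false]
    ring
  simp only [h1, Finset.sum_const, Finset.card_univ, ZMod.card, nsmul_eq_mul]
  rw [hK']; ring
lemma GB_fR (hK : e * 2 ^ N = m) (a : ℝ) (g : (GG t m e q N)) :
    ∑ x, GB a (g * fR x) = t * m * FA (a / 2) g := by
  have hK' : (m : ℝ) = e * 2 ^ N := by exact_mod_cast hK.symm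
  rw [Fintype.sum_prod_type]
  simp only [Fintype.sum_prod_type]
  have h1 : ∀ (l : ZMod t) (b : ZMod e), ∑ κ : Fin N → Bool, GB a (g * fR (l, b, κ)) =
      2 ^ N * FA (a / 2) g := by
    intro l b
    have e1 : ∀ κ : Fin N → Bool, GB a (g * fR (l, b, κ)) =
        ∏ i, (1 - (a / 2) * z0 (sw (κ i) (g.u i)).1) := by
      intro κ
      unfold GB
      refine Finset.prod_congr rfl (fun i _ => ?_)
      simp [fR]
    simp only [e1]
    rw [pisum (fun i (x : Bool) => (1 - (a / 2) * z0 (sw x (g.u i)).1))]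
    unfold FA
    have h2 : (2 : ℝ) ^ N = ∏ _i : Fin N, (2 : ℝ) := by simp
    rw [h2, ← Finset.prod_mul_distrib]
    refine Finset.prod_congr rfl (fun i _ => ?_)
    simp only [Fintype.sum_bool, sw_true, sw_false]
    ring
  simp only [h1, Finset.sum_const, Finset.card_univ, ZMod.card, nsmul_eq_mul]
  rw [hK']; ring

/-- expectation of `Φ` under the law at time `T` of the walk with step set `SS'` -/
noncomputable def EE (T : ℕ) (Φ : GG t m e q N → ℝ) : ℝ := ∑ g, law SS' T g * Φ g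

lemma EE_mono (T : ℕ) (Φ Ψ : (GG t m e q N) → ℝ) (h : ∀ g, Φ g ≤ Ψ g) : EE T Φ ≤ EE T Ψ :=
  Finset.sum_le_sum (fun g _ => mul_le_mul_of_nonneg_left (h g) (law_nonneg _ _ _))

lemma SS'_nonempty : (SS' : Finset (GG t m e q N)).Nonempty := ⟨1, SS_sub one_mem_SS⟩

lemma EE_lin (T : ℕ) (a b c d : ℝ) (Φ Ψ Θ : (GG t m e q N) → ℝ) :
    EE T (fun g => a * Φ g + b * Ψ g + c * Θ g + d) = a * EE T Φ + b * EE T Ψ + c * EE T Θ + d := by
  unfold EE
  have h := law_sum (SS' : Finset (GG t m e q N)) SS'_nonempty T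
  have : ∀ g, law (SS' : Finset (GG t m e q N)) T g * (a * Φ g + b * Ψ g + c * Θ g + d) =
      a * (law SS' T g * Φ g) + b * (law SS' T g * Ψ g) + c * (law SS' T g * Θ g) +
        d * law SS' T g := by
    intro g; ring
  simp only [this, Finset.sum_add_distrib, ← Finset.mul_sum, h, mul_one]

lemma EE_succ (T : ℕ) (Φ : (GG t m e q N) → ℝ) : EE (T + 1) Φ =
    EE T (fun g => Φ g / 2 + (∑ s ∈ SS', Φ (g * s)) / (2 * ((SS' : Finset (GG t m e q N)).card : ℝ))) := by
  unfold EE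
  rw [law_succ, pair_step]

lemma EE_zero (Φ : (GG t m e q N) → ℝ) : EE 0 Φ = Φ 1 := by
  unfold EE law
  simp only [Function.iterate_zero, id]
  rw [Finset.sum_eq_single (1 : (GG t m e q N)) (fun b _ hb => by rw [if_neg hb, zero_mul])
    (fun h => absurd (mem_univ _) h)]
  simp

lemma step_FA (hA : q ^ N = m) (hK : e * 2 ^ N = m) (s : ℝ) (hs : s = 3 * t * m + m - t - 1)
    (hs0 : 0 < s) (a : ℝ) (h0 : 0 ≤ a) (h1 : a ≤ 1) (T : ℕ) :
    EE (t := t) (m := m) (e := e) (q := q) (N := N) (T + 1) (FA a) ≤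
      (1 - m / (2 * s)) * EE (t := t) (m := m) (e := e) (q := q) (N := N) T (FA a) + m / (2 * s) * EE (t := t) (m := m) (e := e) (q := q) (N := N) T (GA a) := by
  have hK' : (e : ℝ) * 2 ^ N = m := by exact_mod_cast hK
  rw [EE_succ]
  have key : ∀ g : (GG t m e q N), FA a g / 2 + (∑ s ∈ SS', FA a (g * s)) / (2 * ((SS' : Finset (GG t m e q N)).card : ℝ)) ≤
      (1 - m / (2 * s)) * FA a g + m / (2 * s) * GA a g + 0 * GA a g + 0 := by
    intro g
    rw [sum_SS', card_SS' hA hK, ← hs]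
    have hb := FA_fA hA a h0 h1 g
    simp only [FA_fF, FA_fR, FA_f1, mul_one, Finset.sum_const, Finset.card_univ, Fintype.card_prod,
      ZMod.card, Fintype.card_bool, Fintype.card_pi, Finset.prod_const, Fintype.card_fin,
      nsmul_eq_mul]
    have e1 : (((t * m * 2 : ℕ) : ℝ) * FA a g + ∑ x, FA a (g * fA x) +
        ((t * (e * 2 ^ N) : ℕ) : ℝ) * FA a g - (t : ℝ) * FA a g - FA a g) ≤
        (s - m) * FA a g + m * GA a g := by
      push_cast
      rw [hK']
      have : (s - m) * FA a g = (3 * t * m - t - 1) * FA a g := by rw [hs]; ring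
      rw [this]
      linarith
    calc _ ≤ FA a g / 2 + ((s - m) * FA a g + m * GA a g) / (2 * s) := by
          gcongr
      _ = _ := by field_simp; ring
  refine (EE_mono T _ _ key).trans ?_
  rw [EE_lin]
  linarith

lemma step_G (hA : q ^ N = m) (hK : e * 2 ^ N = m) (s : ℝ) (hs : s = 3 * t * m + m - t - 1)
    (hs0 : 0 < s) (hmt : (0 : ℝ) ≤ t * m - t - 1) (a : ℝ) (h0 : 0 ≤ a) (h1 : a ≤ 1) (T : ℕ)
    (γ φ : ℝ) (hG : EE (t := t) (m := m) (e := e) (q := q) (N := N) T (GA a) ≤ γ)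
    (hB : EE (t := t) (m := m) (e := e) (q := q) (N := N) T (GB a) ≤ γ)
    (hF : EE (t := t) (m := m) (e := e) (q := q) (N := N) T (FA (a / 2)) ≤ φ) :
    EE (t := t) (m := m) (e := e) (q := q) (N := N) (T + 1) (GA a) ≤
      γ / 2 + ((2 * t * m - t - 1) * γ + m + t * m * φ) / (2 * s) ∧
    EE (t := t) (m := m) (e := e) (q := q) (N := N) (T + 1) (GB a) ≤
      γ / 2 + ((2 * t * m - t - 1) * γ + m + t * m * φ) / (2 * s) := by
  have hs2 : (0 : ℝ) < 2 * s := by linarith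
  have fin : ∀ (A B : ℝ), A ≤ γ → B ≤ γ → ∀ F ≤ φ,
      (1 / 2 + (t * m - t - 1) / (2 * s)) * A + (t * m / (2 * s)) * B + (t * m / (2 * s)) * F +
        m / (2 * s) ≤ γ / 2 + ((2 * t * m - t - 1) * γ + m + t * m * φ) / (2 * s) := by
    intro A B hA1 hB1 F hF1
    have e1 : (0 : ℝ) ≤ 1 / 2 + (t * m - t - 1) / (2 * s) := by positivity
    have e2 : (0 : ℝ) ≤ t * m / (2 * s) := by positivity
    calc _ ≤ (1 / 2 + (t * m - t - 1) / (2 * s)) * γ + (t * m / (2 * s)) * γ +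
          (t * m / (2 * s)) * φ + m / (2 * s) := by gcongr
      _ = _ := by field_simp; ring
  constructor
  · rw [EE_succ]
    have key : ∀ g : (GG t m e q N), GA a g / 2 + (∑ s ∈ SS', GA a (g * s)) / (2 * ((SS' : Finset (GG t m e q N)).card : ℝ)) ≤
        (1 / 2 + (t * m - t - 1) / (2 * s)) * GA a g + (t * m / (2 * s)) * GB a g +
          (t * m / (2 * s)) * FA (a / 2) g + m / (2 * s) := by
      intro g
      rw [sum_SS', card_SS' hA hK, ← hs]
      have hb := GA_fA hA a h0 h1 g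
      simp only [GA_fF, GA_fR hK, GA_f1, mul_one, Finset.sum_const, Finset.card_univ, ZMod.card,
        nsmul_eq_mul]
      calc _ ≤ GA a g / 2 + (t * m * (GA a g + GB a g) + m + t * m * FA (a / 2) g -
            t * GA a g - GA a g) / (2 * s) := by gcongr
        _ = _ := by field_simp; ring
    refine (EE_mono T _ _ key).trans ?_
    rw [EE_lin]
    exact fin _ _ hG hB _ hF
  · rw [EE_succ]
    have key : ∀ g : (GG t m e q N), GB a g / 2 + (∑ s ∈ SS', GB a (g * s)) / (2 * ((SS' : Finset (GG t m e q N)).card : ℝ)) ≤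
        (1 / 2 + (t * m - t - 1) / (2 * s)) * GB a g + (t * m / (2 * s)) * GA a g +
          (t * m / (2 * s)) * FA (a / 2) g + m / (2 * s) := by
      intro g
      rw [sum_SS', card_SS' hA hK, ← hs]
      have hb := GB_fA hA a h0 h1 g
      simp only [GB_fF, GB_fR hK, GB_f1, mul_one, Finset.sum_const, Finset.card_univ, ZMod.card,
        nsmul_eq_mul]
      calc _ ≤ GB a g / 2 + (t * m * (GA a g + GB a g) + m + t * m * FA (a / 2) g -
            t * GB a g - GB a g) / (2 * s) := by gcongr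
        _ = _ := by field_simp; ring
    refine (EE_mono T _ _ key).trans ?_
    rw [EE_lin]
    exact fin _ _ hB hG _ hF

end conc

end Pool.Agent.H299.Slow
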