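import Pool.Agent.H299_Slow.Mix

set_option autoImplicit false

namespace Pool.Agent.H299.Slow

open Finset

def tt (n : ℕ) : ℕ := n + 2
def NN (n : ℕ) : ℕ := 4 * 2 ^ (n + 1)
def qq (n : ℕ) : ℕ := 2 ^ (n + 6)
def mm (n : ℕ) : ℕ := qq n ^ NN n
def ee (n : ℕ) : ℕ := (2 ^ (n + 5)) ^ NN n

instance (n : ℕ) : NeZero (tt n) := ⟨by unfold tt; omega⟩
instance (n : ℕ) : NeZero (qq n) := ⟨by unfold qq; positivity⟩
instance (n : ℕ) : NeZero (mm n) := ⟨by unfold mm qq; positivity⟩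
instance (n : ℕ) : NeZero (ee n) := ⟨by unfold ee; positivity⟩

/-- the groups -/
abbrev Gn (n : ℕ) : Type := GG (tt n) (mm n) (ee n) (qq n) (NN n)

lemma hAn (n : ℕ) : qq n ^ NN n = mm n := rfl
lemma hKn (n : ℕ) : ee n * 2 ^ NN n = mm n := by
  unfold ee mm qq
  rw [← mul_pow, ← pow_succ]
lemma hqn (n : ℕ) : 8 * NN n ≤ qq n := by
  unfold NN qq
  exact le_of_eq (by ring)
lemma NN_pos (n : ℕ) : 4 ≤ NN n := by
  unfold NN
  have : 1 ≤ 2 ^ (n + 1) := Nat.one_le_two_pow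
  omega
lemma qq_ge (n : ℕ) : 2 ≤ qq n := by
  have := hqn n
  have := NN_pos n
  omega
lemma mm_ge (n : ℕ) : 2 ≤ mm n := by
  unfold mm
  calc 2 ≤ qq n := qq_ge n
    _ = qq n ^ 1 := (pow_one _).symm
    _ ≤ qq n ^ NN n := Nat.pow_le_pow_right (by have := qq_ge n; omega) (by have := NN_pos n; omega)
lemma ee_ge (n : ℕ) : 2 ≤ ee n := by
  unfold ee
  have h1 : 2 ≤ 2 ^ (n + 5) := by
    calc 2 = 2 ^ 1 := rfl
      _ ≤ 2 ^ (n + 5) := Nat.pow_le_pow_right (by norm_num) (by omega)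
  calc 2 ≤ 2 ^ (n + 5) := h1
    _ = (2 ^ (n + 5)) ^ 1 := (pow_one _).symm
    _ ≤ (2 ^ (n + 5)) ^ NN n := Nat.pow_le_pow_right (by omega) (by have := NN_pos n; omega)

lemma card_Gn (n : ℕ) : Fintype.card (Gn n) = 2 * tt n * mm n ^ 4 := by
  rw [card_GG]
  have h1 := hKn n
  have h2 : (qq n * qq n) ^ NN n = mm n * mm n := by rw [mul_pow]; rfl
  rw [h2]
  calc tt n * mm n * (ee n * 2) * (2 ^ NN n * (mm n * mm n)) =
        2 * tt n * (mm n * (ee n * 2 ^ NN n) * (mm n * mm n)) := by ring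
    _ = _ := by rw [h1]; ring

lemma card_ge (n : ℕ) : n + 2 ≤ Fintype.card (Gn n) := by
  rw [card_Gn]
  have h1 : 1 ≤ mm n ^ 4 := Nat.one_le_pow _ _ (by have := mm_ge n; omega)
  have h2 : tt n = n + 2 := rfl
  nlinarith

lemma card_le (n : ℕ) : Fintype.card (Gn n) ≤ 2 ^ (2 ^ (2 * n + 9)) := by
  rw [card_Gn]
  have h1 : 2 * tt n ≤ 2 ^ (n + 2) := by
    unfold tt
    have : n < 2 ^ n := Nat.lt_two_pow_self
    rw [pow_add]; omega
  have h2 : mm n ^ 4 = 2 ^ ((n + 6) * (4 * 2 ^ (n + 1)) * 4) := by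
    unfold mm qq NN
    rw [← pow_mul, ← pow_mul]
    congr 1
    ring
  rw [h2]
  calc 2 * tt n * 2 ^ ((n + 6) * (4 * 2 ^ (n + 1)) * 4)
      ≤ 2 ^ (n + 2) * 2 ^ ((n + 6) * (4 * 2 ^ (n + 1)) * 4) := Nat.mul_le_mul_right _ h1
    _ = 2 ^ (n + 2 + (n + 6) * (4 * 2 ^ (n + 1)) * 4) := (pow_add 2 (n + 2) _).symm
    _ ≤ 2 ^ (2 ^ (2 * n + 9)) := by
        apply Nat.pow_le_pow_right (by norm_num)
        have h3 : n + 6 ≤ 2 ^ (n + 3) := by
          have : n < 2 ^ n := Nat.lt_two_pow_self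
          rw [pow_add]
          omega
        have h4 : (n + 6) * (4 * 2 ^ (n + 1)) * 4 = (n + 6) * 2 ^ (n + 5) := by
          rw [show n + 5 = (n + 1) + 4 by ring, pow_add]; ring
        have h5 : n + 2 ≤ (n + 6) * 2 ^ (n + 5) := by
          have : 1 ≤ 2 ^ (n + 5) := Nat.one_le_two_pow
          nlinarith
        rw [h4]
        calc n + 2 + (n + 6) * 2 ^ (n + 5) ≤ (n + 6) * 2 ^ (n + 5) + (n + 6) * 2 ^ (n + 5) := by
              omega
          _ = (n + 6) * 2 ^ (n + 6) := by rw [pow_succ 2 (n + 5)]; ring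
          _ ≤ 2 ^ (n + 3) * 2 ^ (n + 6) := Nat.mul_le_mul_right _ h3
          _ = 2 ^ (2 * n + 9) := by rw [← pow_add]; congr 1; ring

lemma loglog_le (n : ℕ) : Real.log (Real.log (Fintype.card (Gn n) : ℝ)) ≤ 9 * (n + 1) := by
  have h0 : (2 : ℝ) ≤ Fintype.card (Gn n) := by
    have := card_ge n
    have h : 2 ≤ Fintype.card (Gn n) := by omega
    exact_mod_cast h
  have h1 : 0 < Real.log (Fintype.card (Gn n) : ℝ) := Real.log_pos (by linarith)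
  have hl2 : Real.log 2 ≤ 1 := by
    have := Real.log_le_sub_one_of_pos (show (0 : ℝ) < 2 by norm_num)
    linarith
  have hl0 : 0 ≤ Real.log 2 := Real.log_nonneg (by norm_num)
  have h2 : Real.log (Fintype.card (Gn n) : ℝ) ≤ (2 : ℝ) ^ (2 * n + 9) := by
    calc Real.log (Fintype.card (Gn n) : ℝ) ≤ Real.log ((2 : ℝ) ^ (2 ^ (2 * n + 9))) := by
          apply Real.log_le_log (by linarith)
          exact_mod_cast card_le n
      _ = ((2 ^ (2 * n + 9) : ℕ) : ℝ) * Real.log 2 := by rw [Real.log_pow]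
      _ ≤ ((2 ^ (2 * n + 9) : ℕ) : ℝ) * 1 := by gcongr
      _ = _ := by push_cast; ring
  calc Real.log (Real.log (Fintype.card (Gn n) : ℝ)) ≤ Real.log ((2 : ℝ) ^ (2 * n + 9)) :=
        Real.log_le_log h1 h2
    _ = ((2 * n + 9 : ℕ) : ℝ) * Real.log 2 := by rw [Real.log_pow]
    _ ≤ ((2 * n + 9 : ℕ) : ℝ) * 1 := by gcongr
    _ ≤ 9 * (n + 1) := by push_cast; nlinarith [show (0 : ℝ) ≤ n by positivity]

theorem tmix_ineq (n : ℕ) :
    (1 / 3600 : ℝ) * ((sInf (mixed (SS : Finset (Gn n))) : ℕ) : ℝ) *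
      Real.log (Real.log (Fintype.card (Gn n) : ℝ)) ≤
      ((sInf (mixed (SS' : Finset (Gn n))) : ℕ) : ℝ) := by
  have hm := mm_ge n
  have hu : 400 * tt n ∈ mixed (SS : Finset (Gn n)) :=
    tv_upper (hAn n) (hKn n) (by unfold tt; omega) hm
  have h1 : sInf (mixed (SS : Finset (Gn n))) ≤ 400 * tt n := Nat.sInf_le hu
  have hne : (mixed (SS' : Finset (Gn n))).Nonempty :=
    mixed_nonempty SS SS' ⟨1, one_mem_SS⟩ SS_sub _ hu
  have h2 := tv_lower (hAn n) (hKn n) hm (n + 1) (by omega) (by unfold tt; omega) rfl (hqn n) _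
    (Nat.sInf_mem hne)
  have h3 := loglog_le n
  have h1' : ((sInf (mixed (SS : Finset (Gn n))) : ℕ) : ℝ) ≤ 400 * (tt n : ℝ) := by
    exact_mod_cast h1
  have h0 : (0 : ℝ) ≤ ((sInf (mixed (SS : Finset (Gn n))) : ℕ) : ℝ) := by positivity
  push_cast at h2
  calc (1 / 3600 : ℝ) * ((sInf (mixed (SS : Finset (Gn n))) : ℕ) : ℝ) *
        Real.log (Real.log (Fintype.card (Gn n) : ℝ))
      ≤ (1 / 3600 : ℝ) * ((sInf (mixed (SS : Finset (Gn n))) : ℕ) : ℝ) * (9 * (n + 1)) := by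
        gcongr
    _ ≤ (1 / 3600 : ℝ) * (400 * (tt n : ℝ)) * (9 * (n + 1)) := by gcongr
    _ = (tt n : ℝ) * (n + 1) := by ring
    _ ≤ _ := h2

lemma card_ratio (n : ℕ) : ((SS' : Finset (Gn n)).card : ℝ) ≤ 3 / 2 * ((SS : Finset (Gn n)).card : ℝ) := by
  rw [card_SS' (hAn n) (hKn n), card_SS (hAn n) (hKn n)]
  have h1 : (2 : ℝ) ≤ mm n := by exact_mod_cast mm_ge n
  have h2 : (2 : ℝ) ≤ tt n := by
    have : 2 ≤ tt n := by unfold tt; omega
    exact_mod_cast this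
  nlinarith

end Pool.Agent.H299.Slow
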