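import Pool.Agent.H299_Slow.Final

set_option autoImplicit false

namespace Pool.Agent.H299.Slow

open Finset

section gen
variable {G : Type} [Group G] [Fintype G]

/-- mixing set -/
def mixed (S : Finset G) : Set ℕ :=
  {T | (1 / 2 : ℝ) * ∑ g, |law S T g - 1 / (Fintype.card G : ℝ)| ≤ 1 / 4}

lemma law_conv (S : Finset G) (T T' : ℕ) (x : G) :
    law S (T' + T) x = ∑ y, law S T y * law S T' (y⁻¹ * x) := by
  induction T' generalizing x with
  | zero =>
    classical
    rw [zero_add]
    have : ∀ y, law S 0 (y⁻¹ * x) = if y = x then 1 else 0 := by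
      intro y
      unfold law
      simp only [Function.iterate_zero, id]
      by_cases h : y = x
      · subst h; simp
      · have h2 : y⁻¹ * x ≠ 1 := fun h3 => h (by rwa [inv_mul_eq_one] at h3)
        simp [h, h2]
    simp only [this]
    simp
  | succ T' ih =>
    rw [show T' + 1 + T = (T' + T) + 1 by omega, law_succ, law_succ]
    unfold lazyStep
    rw [ih]
    have h1 : ∀ s : G, law S (T' + T) (x * s⁻¹) =
        ∑ y, law S T y * law S T' (y⁻¹ * x * s⁻¹) := by
      intro s
      rw [ih]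
      refine Finset.sum_congr rfl (fun y _ => by rw [mul_assoc])
    simp only [h1]
    rw [Finset.sum_comm]
    simp only [← Finset.mul_sum]
    rw [Finset.sum_div, Finset.sum_div, ← Finset.sum_add_distrib]
    refine Finset.sum_congr rfl (fun y _ => by ring)

lemma law_dom (S S' : Finset G) (hS : S.Nonempty) (hSS : S ⊆ S') (T : ℕ) (g : G) :
    ((S.card : ℝ) / S'.card) ^ T * law S T g ≤ law S' T g := by
  have c1 : (0 : ℝ) < S.card := by exact_mod_cast hS.card_pos
  have c2 : (0 : ℝ) < S'.card := by exact_mod_cast (hS.mono hSS).card_pos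
  have c3 : (S.card : ℝ) ≤ S'.card := by exact_mod_cast Finset.card_le_card hSS
  set θ : ℝ := (S.card : ℝ) / S'.card with hθ
  have hθ0 : 0 < θ := by positivity
  have hθ1 : θ ≤ 1 := by rw [hθ, div_le_one c2]; exact c3
  induction T generalizing g with
  | zero => simp [law]
  | succ T ih =>
    rw [law_succ, law_succ]
    unfold lazyStep
    have h1 : ∑ s ∈ S, θ ^ T * law S T (g * s⁻¹) ≤ ∑ s ∈ S', law S' T (g * s⁻¹) :=
      (Finset.sum_le_sum (fun s _ => ih (g * s⁻¹))).trans
        (Finset.sum_le_sum_of_subset_of_nonneg hSS (fun s _ _ => law_nonneg _ _ _))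
    rw [← Finset.mul_sum] at h1
    have h2 := ih g
    have h3 : 0 ≤ θ ^ T * law S T g := mul_nonneg (pow_nonneg hθ0.le _) (law_nonneg _ _ _)
    have h4 : θ * (θ ^ T * law S T g) ≤ law S' T g := by nlinarith
    have h5 : θ ^ (T + 1) * ((∑ s ∈ S, law S T (g * s⁻¹)) / (2 * S.card)) ≤
        (∑ s ∈ S', law S' T (g * s⁻¹)) / (2 * S'.card) := by
      have : θ ^ (T + 1) * ((∑ s ∈ S, law S T (g * s⁻¹)) / (2 * S.card)) =
          (θ ^ T * ∑ s ∈ S, law S T (g * s⁻¹)) / (2 * S'.card) := by
        rw [pow_succ, hθ]; field_simp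
      rw [this]
      gcongr
    calc _ = (θ * (θ ^ T * law S T g)) / 2 +
          θ ^ (T + 1) * ((∑ s ∈ S, law S T (g * s⁻¹)) / (2 * S.card)) := by
          rw [pow_succ]; ring
      _ ≤ _ := by gcongr

lemma mixed_of_lb (S : Finset G) (hS : S.Nonempty) (T1 : ℕ) (κ : ℝ) (hκ0 : 0 < κ)
    (hlb : ∀ g, κ / (Fintype.card G : ℝ) ≤ law S T1 g) : (mixed S).Nonempty := by
  have hc : (0 : ℝ) < Fintype.card G := by
    have : 0 < Fintype.card G := Fintype.card_pos
    positivity
  have hκ1 : κ ≤ 1 := by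
    have h1 := law_sum S hS T1
    have h2 : ∑ _g : G, κ / (Fintype.card G : ℝ) ≤ ∑ g, law S T1 g :=
      Finset.sum_le_sum (fun g _ => hlb g)
    rw [h1, Finset.sum_const, Finset.card_univ, nsmul_eq_mul] at h2
    rwa [mul_div_cancel₀ _ hc.ne'] at h2
  have hcon : ∀ j : ℕ, ∑ g, |law S (T1 * j) g - 1 / (Fintype.card G : ℝ)| ≤ 2 * (1 - κ) ^ j := by
    intro j
    induction j with
    | zero =>
      rw [mul_zero, pow_zero, mul_one]
      calc ∑ g, |law S 0 g - 1 / (Fintype.card G : ℝ)|
          ≤ ∑ g, (law S 0 g + 1 / (Fintype.card G : ℝ)) := by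
            refine Finset.sum_le_sum (fun g _ => ?_)
            have h1 := law_nonneg S 0 g
            have h2 : 0 < 1 / (Fintype.card G : ℝ) := by positivity
            rw [abs_le]; constructor <;> linarith
        _ = 2 := by
            rw [Finset.sum_add_distrib, law_sum S hS, Finset.sum_const, Finset.card_univ,
              nsmul_eq_mul]
            field_simp
            norm_num
    | succ j ih =>
      have h0 : ∑ y, (law S (T1 * j) y - 1 / (Fintype.card G : ℝ)) = 0 := by
        rw [Finset.sum_sub_distrib, law_sum S hS, Finset.sum_const, Finset.card_univ, nsmul_eq_mul]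
        field_simp
        ring
      have h1 : ∀ x, law S (T1 * (j + 1)) x - 1 / (Fintype.card G : ℝ) =
          ∑ y, (law S (T1 * j) y - 1 / (Fintype.card G : ℝ)) *
            (law S T1 (y⁻¹ * x) - κ / (Fintype.card G : ℝ)) := by
        intro x
        have e1 : ∑ y, (law S (T1 * j) y - 1 / (Fintype.card G : ℝ)) *
            (law S T1 (y⁻¹ * x) - κ / (Fintype.card G : ℝ)) =
            ∑ y, law S (T1 * j) y * law S T1 (y⁻¹ * x) -
              (1 / (Fintype.card G : ℝ)) * ∑ y, law S T1 (y⁻¹ * x) -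
              (κ / (Fintype.card G : ℝ)) * ∑ y, (law S (T1 * j) y - 1 / (Fintype.card G : ℝ)) := by
          rw [Finset.mul_sum, Finset.mul_sum, ← Finset.sum_sub_distrib, ← Finset.sum_sub_distrib]
          refine Finset.sum_congr rfl (fun y _ => by ring)
        have e2 : ∑ y, law S T1 (y⁻¹ * x) = 1 := by
          rw [← law_sum S hS T1]
          exact Fintype.sum_equiv ((Equiv.inv G).trans (Equiv.mulRight x)) _ _ (fun y => rfl)
        rw [e1, e2, h0, mul_zero, sub_zero, mul_one, ← law_conv]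
        congr 2
        ring
      calc ∑ x, |law S (T1 * (j + 1)) x - 1 / (Fintype.card G : ℝ)|
          ≤ ∑ x, ∑ y, |law S (T1 * j) y - 1 / (Fintype.card G : ℝ)| *
            (law S T1 (y⁻¹ * x) - κ / (Fintype.card G : ℝ)) := by
            refine Finset.sum_le_sum (fun x _ => ?_)
            rw [h1 x]
            refine (Finset.abs_sum_le_sum_abs _ _).trans (Finset.sum_le_sum (fun y _ => ?_))
            rw [abs_mul, abs_of_nonneg (sub_nonneg.2 (hlb _))]
        _ = ∑ y, |law S (T1 * j) y - 1 / (Fintype.card G : ℝ)| * (1 - κ) := by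
            rw [Finset.sum_comm]
            refine Finset.sum_congr rfl (fun y _ => ?_)
            rw [← Finset.mul_sum, Finset.sum_sub_distrib, Finset.sum_const, Finset.card_univ,
              nsmul_eq_mul, mul_div_cancel₀ _ hc.ne']
            congr 2
            rw [← law_sum S hS T1]
            exact Fintype.sum_equiv (Equiv.mulLeft y⁻¹) _ _ (fun x => rfl)
        _ = (∑ y, |law S (T1 * j) y - 1 / (Fintype.card G : ℝ)|) * (1 - κ) := by
            rw [Finset.sum_mul]
        _ ≤ (2 * (1 - κ) ^ j) * (1 - κ) := by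
            apply mul_le_mul_of_nonneg_right ih
            linarith
        _ = 2 * (1 - κ) ^ (j + 1) := by ring
  obtain ⟨j, hj⟩ := exists_pow_lt_of_lt_one (show (0 : ℝ) < 1 / 4 by norm_num)
    (show 1 - κ < 1 by linarith)
  refine ⟨T1 * j, ?_⟩
  have := hcon j
  show (1 / 2 : ℝ) * ∑ g, |law S (T1 * j) g - 1 / (Fintype.card G : ℝ)| ≤ 1 / 4
  linarith

lemma pos_of_mixed (S : Finset G) (hS : S.Nonempty) (T : ℕ) (hT : T ∈ mixed S) (x : G) :
    0 < law S (T + T) x := by
  have hc : (0 : ℝ) < Fintype.card G := by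
    have : 0 < Fintype.card G := Fintype.card_pos
    positivity
  by_contra hcon
  have h0 : law S (T + T) x = 0 := le_antisymm (not_lt.1 hcon) (law_nonneg _ _ _)
  rw [law_conv] at h0
  have h1 := (Finset.sum_eq_zero_iff_of_nonneg
    (fun y _ => mul_nonneg (law_nonneg S T y) (law_nonneg S T (y⁻¹ * x)))).1 h0
  obtain ⟨u, hu⟩ : ∃ u : ℝ, u = 1 / (Fintype.card G : ℝ) := ⟨_, rfl⟩
  have hu0 : 0 < u := by rw [hu]; positivity
  have key : ∀ y, u ≤ (|law S T y - u| + (u - law S T y)) / 2 +
      (|law S T (y⁻¹ * x) - u| + (u - law S T (y⁻¹ * x))) / 2 := by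
    intro y
    have a1 : 0 ≤ |law S T y - u| + (u - law S T y) := by
      have := le_abs_self (law S T y - u); linarith
    have a2 : 0 ≤ |law S T (y⁻¹ * x) - u| + (u - law S T (y⁻¹ * x)) := by
      have := le_abs_self (law S T (y⁻¹ * x) - u); linarith
    rcases mul_eq_zero.1 (h1 y (mem_univ _)) with h | h
    · rw [h] at a1 ⊢
      have : |0 - u| = u := by rw [zero_sub, abs_neg, abs_of_pos hu0]
      rw [this]; linarith
    · rw [h] at a2 ⊢
      have : |0 - u| = u := by rw [zero_sub, abs_neg, abs_of_pos hu0]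
      rw [this]; linarith
  have h2 := Finset.sum_le_sum (s := univ) (fun y _ => key y)
  have hT' : (1 / 2 : ℝ) * ∑ g, |law S T g - u| ≤ 1 / 4 := by rw [hu]; exact hT
  have s1 : ∑ _y : G, u = 1 := by
    rw [Finset.sum_const, Finset.card_univ, nsmul_eq_mul, hu]; field_simp
  have s2 : ∑ y, (|law S T y - u| + (u - law S T y)) / 2 = (1 / 2 : ℝ) * ∑ g, |law S T g - u| := by
    rw [← Finset.sum_div, Finset.sum_add_distrib, Finset.sum_sub_distrib, s1, law_sum S hS]
    ring
  have s3 : ∑ y, (|law S T (y⁻¹ * x) - u| + (u - law S T (y⁻¹ * x))) / 2 =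
      (1 / 2 : ℝ) * ∑ g, |law S T g - u| := by
    rw [← s2]
    exact Fintype.sum_equiv ((Equiv.inv G).trans (Equiv.mulRight x)) _ _ (fun y => rfl)
  rw [Finset.sum_add_distrib, s1, s2, s3] at h2
  linarith

lemma mixed_nonempty (S S' : Finset G) (hS : S.Nonempty) (hSS : S ⊆ S') (T : ℕ)
    (hT : T ∈ mixed S) : (mixed S').Nonempty := by
  have hc : (0 : ℝ) < Fintype.card G := by
    have : 0 < Fintype.card G := Fintype.card_pos
    positivity
  have c1 : (0 : ℝ) < S.card := by exact_mod_cast hS.card_pos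
  have c2 : (0 : ℝ) < S'.card := by exact_mod_cast (hS.mono hSS).card_pos
  have hpos : ∀ x, 0 < law S' (T + T) x := fun x =>
    lt_of_lt_of_le (mul_pos (by positivity) (pos_of_mixed S hS T hT x))
      (law_dom S S' hS hSS (T + T) x)
  obtain ⟨x0, _, hx0⟩ := Finset.exists_min_image univ (law S' (T + T)) ⟨1, mem_univ _⟩
  refine mixed_of_lb S' (hS.mono hSS) (T + T) (law S' (T + T) x0 * Fintype.card G)
    (mul_pos (hpos x0) hc) (fun g => ?_)
  rw [mul_div_cancel_right₀ _ hc.ne']
  exact hx0 g (mem_univ _)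

end gen

end Pool.Agent.H299.Slow
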