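import Mathlib

set_option autoImplicit false

namespace Pool.Agent.H299.Slow

open Finset

section abstractG
variable {G : Type} [Group G] [Fintype G]

/-- average of `y (g * φ h)` over `h` -/
noncomputable def M {H : Type} [Fintype H] (φ : H → G) : (G → ℝ) →ₗ[ℝ] (G → ℝ) where
  toFun y g := (∑ h, y (g * φ h)) / Fintype.card H
  map_add' := by intro x y; funext g; simp [Finset.sum_add_distrib, add_div]
  map_smul' := by intro c y; funext g; simp [← Finset.mul_sum, mul_div_assoc]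

lemma M_apply {H : Type} [Fintype H] (φ : H → G) (y : G → ℝ) (g : G) :
    M φ y g = (∑ h, y (g * φ h)) / Fintype.card H := rfl

/-- the `ℓ¹` norm -/
def nrm (y : G → ℝ) : ℝ := ∑ g, |y g|

lemma nrm_nonneg (y : G → ℝ) : 0 ≤ nrm y := Finset.sum_nonneg (fun _ _ => abs_nonneg _)
lemma nrm_zero : nrm (0 : G → ℝ) = 0 := by simp [nrm]
lemma nrm_add_le (x y : G → ℝ) : nrm (x + y) ≤ nrm x + nrm y := by
  unfold nrm
  rw [← Finset.sum_add_distrib]
  exact Finset.sum_le_sum (fun g _ => abs_add_le _ _)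
lemma nrm_sub_le (x y : G → ℝ) : nrm (x - y) ≤ nrm x + nrm y := by
  unfold nrm
  rw [← Finset.sum_add_distrib]
  exact Finset.sum_le_sum (fun g _ => abs_sub _ _)
lemma nrm_smul (c : ℝ) (hc : 0 ≤ c) (y : G → ℝ) : nrm (c • y) = c * nrm y := by
  unfold nrm
  rw [Finset.mul_sum]
  exact Finset.sum_congr rfl (fun g _ => by simp [abs_mul, abs_of_nonneg hc])

lemma nrm_M_le {H : Type} [Fintype H] [Nonempty H] (φ : H → G) (y : G → ℝ) :
    nrm (M φ y) ≤ nrm y := by
  have hc : (0 : ℝ) < Fintype.card H := by exact_mod_cast Fintype.card_pos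
  have h1 : ∀ g, |M φ y g| ≤ (∑ h, |y (g * φ h)|) / Fintype.card H := by
    intro g
    rw [M_apply, abs_div, abs_of_pos hc]
    gcongr
    exact Finset.abs_sum_le_sum_abs _ _
  have h2 : ∀ h : H, ∑ g, |y (g * φ h)| = nrm y := by
    intro h
    exact Fintype.sum_equiv (Equiv.mulRight (φ h)) _ _ (fun g => rfl)
  calc nrm (M φ y) ≤ ∑ g, (∑ h, |y (g * φ h)|) / Fintype.card H :=
        Finset.sum_le_sum (fun g _ => h1 g)
    _ = (∑ h, ∑ g, |y (g * φ h)|) / Fintype.card H := by
        rw [← Finset.sum_div, Finset.sum_comm]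
    _ = nrm y := by
        simp only [h2]
        rw [Finset.sum_const, Finset.card_univ, nsmul_eq_mul]
        field_simp

lemma M_comm' {H K : Type} [Fintype H] [Fintype K] (φ : H → G) (ψ : K → G)
    (σ : K → H ≃ H) (hc : ∀ h k, φ h * ψ k = ψ k * φ (σ k h)) (y : G → ℝ) :
    M φ (M ψ y) = M ψ (M φ y) := by
  funext g
  simp only [M_apply]
  rw [← Finset.sum_div, ← Finset.sum_div, Finset.sum_comm, div_div, div_div,
    mul_comm (Fintype.card K : ℝ)]
  congr 1
  refine Finset.sum_congr rfl (fun k _ => ?_)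
  refine Fintype.sum_equiv (σ k) _ _ (fun h => ?_)
  rw [mul_assoc, hc, mul_assoc]

lemma M_comm {H K : Type} [Fintype H] [Fintype K] (φ : H → G) (ψ : K → G)
    (hc : ∀ h k, φ h * ψ k = ψ k * φ h) (y : G → ℝ) :
    M φ (M ψ y) = M ψ (M φ y) :=
  M_comm' φ ψ (fun _ => Equiv.refl _) hc y

lemma M_absorb {H K : Type} [Fintype H] [Nonempty H] [Fintype K] (φ : H → G) (ψ : K → G)
    (σ : H → K ≃ K) (hc : ∀ h k, φ h * ψ k = ψ (σ h k)) (y : G → ℝ) :
    M φ (M ψ y) = M ψ y := by
  have hcH : (0 : ℝ) < Fintype.card H := by exact_mod_cast Fintype.card_pos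
  funext g
  rw [M_apply]
  have : ∀ h : H, M ψ y (g * φ h) = M ψ y g := by
    intro h
    rw [M_apply, M_apply]
    congr 1
    refine Fintype.sum_equiv (σ h) _ _ (fun k => ?_)
    rw [mul_assoc, hc]
  simp only [this]
  rw [Finset.sum_const, Finset.card_univ, nsmul_eq_mul]
  field_simp

end abstractG

section upper
variable {G : Type} [Group G] [Fintype G]

/-- the walk operator -/
def PP (β0 β1 β2 β3 : ℝ) (MF MA MK : Module.End ℝ (G → ℝ)) : Module.End ℝ (G → ℝ) :=
  β0 • 1 + β1 • MF + β2 • MA + β3 • MK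

lemma PP_apply (β0 β1 β2 β3 : ℝ) (MF MA MK : Module.End ℝ (G → ℝ)) (y : G → ℝ) :
    PP β0 β1 β2 β3 MF MA MK y = β0 • y + β1 • MF y + β2 • MA y + β3 • MK y := by
  simp [PP]

theorem upper (MF ML MH Th MA MV MK : Module.End ℝ (G → ℝ))
    (nMA : ∀ y, nrm (MA y) ≤ nrm y) (nMK : ∀ y, nrm (MK y) ≤ nrm y)
    (nML : ∀ y, nrm (ML y) ≤ nrm y) (nMV : ∀ y, nrm (MV y) ≤ nrm y)
    (nMH : ∀ y, nrm (MH y) ≤ nrm y)
    (hF : ∀ y, MF y = ML (MH y)) (hH : ∀ y, MH y = (1 / 2 : ℝ) • (y + Th y))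
    (cLH : ∀ y, ML (MH y) = MH (ML y)) (cLA : ∀ y, ML (MA y) = MA (ML y))
    (cLK : ∀ y, ML (MK y) = MK (ML y)) (cLV : ∀ y, ML (MV y) = MV (ML y))
    (cVH : ∀ y, MV (MH y) = MH (MV y)) (cVK : ∀ y, MV (MK y) = MK (MV y))
    (cVA : ∀ y, MV (MA y) = MA (MV y)) (cHK : ∀ y, MH (MK y) = MK (MH y))
    (iL : ∀ y, ML (ML y) = ML y) (iH : ∀ y, MH (MH y) = MH y)
    (iA : ∀ y, MA (MA y) = MA y) (iV : ∀ y, MV (MV y) = MV y) (iK : ∀ y, MK (MK y) = MK y)
    (hAV : ∀ y, MA (MV y) = MV y) (hAT : ∀ y, MA (Th (MA y)) = Th (MV y))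
    (β0 β1 β : ℝ) (h0 : 0 ≤ β0) (h1 : 0 ≤ β1) (hβ : 0 ≤ β) (hsum : β0 + β1 + 2 * β = 1)
    (hb : 2 * β ≤ β1) (T : ℕ) (y : G → ℝ) :
    nrm (((PP β0 β1 β β MF MA MK) ^ T) (y - MK (MH (MV (ML y))))) ≤
      9 * (1 - β / 10) ^ T * nrm y := by
  set P := PP β0 β1 β β MF MA MK with hP
  have Pa : ∀ y, P y = β0 • y + β1 • MF y + β • MA y + β • MK y := fun y => PP_apply _ _ _ _ _ _ _ y
  have Ps : ∀ (T : ℕ) (y : G → ℝ), (P ^ (T + 1)) y =
      β0 • (P ^ T) y + β1 • (P ^ T) (MF y) + β • (P ^ T) (MA y) + β • (P ^ T) (MK y) := by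
    intro T y
    rw [pow_succ, Module.End.mul_apply, Pa]
    simp only [map_add, map_smul]
  have tri : ∀ (a b c d : ℝ) (x1 x2 x3 x4 : G → ℝ), 0 ≤ a → 0 ≤ b → 0 ≤ c → 0 ≤ d →
      nrm (a • x1 + b • x2 + c • x3 + d • x4) ≤ a * nrm x1 + b * nrm x2 + c * nrm x3 + d * nrm x4 := by
    intro a b c d x1 x2 x3 x4 ha hb hc hd
    refine (nrm_add_le _ _).trans ?_
    rw [nrm_smul d hd]
    gcongr
    refine (nrm_add_le _ _).trans ?_
    rw [nrm_smul c hc]
    gcongr
    refine (nrm_add_le _ _).trans ?_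
    rw [nrm_smul b hb, nrm_smul a ha]
  set lam : ℝ := 1 - β / 10 with hlam
  have hβ4 : β ≤ 1 / 4 := by linarith
  have hlam0 : 0 ≤ lam := by rw [hlam]; linarith
  -- T1 and T3 : killed by MF
  have K1 : ∀ (T : ℕ) (y : G → ℝ), ML y = 0 → nrm ((P ^ T) y) ≤ lam ^ T * nrm y := by
    intro T
    induction T with
    | zero => intro y _; simp
    | succ T ih =>
      intro y hy
      have hFy : MF y = 0 := by rw [hF, cLH, hy, map_zero]
      have hAy : ML (MA y) = 0 := by rw [cLA, hy, map_zero]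
      have hKy : ML (MK y) = 0 := by rw [cLK, hy, map_zero]
      rw [Ps, hFy]
      refine (tri _ _ _ _ _ _ _ _ h0 h1 hβ hβ).trans ?_
      have e1 := ih y hy
      have e2 := (ih _ hAy).trans (mul_le_mul_of_nonneg_left (nMA y) (pow_nonneg hlam0 T))
      have e3 := (ih _ hKy).trans (mul_le_mul_of_nonneg_left (nMK y) (pow_nonneg hlam0 T))
      rw [map_zero, nrm_zero, mul_zero, add_zero]
      have hX : 0 ≤ lam ^ T * nrm y := mul_nonneg (pow_nonneg hlam0 T) (nrm_nonneg y)
      calc β0 * nrm ((P ^ T) y) + β * nrm ((P ^ T) (MA y)) + β * nrm ((P ^ T) (MK y))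
          ≤ β0 * (lam ^ T * nrm y) + β * (lam ^ T * nrm y) + β * (lam ^ T * nrm y) := by gcongr
        _ = (β0 + 2 * β) * (lam ^ T * nrm y) := by ring
        _ ≤ lam * (lam ^ T * nrm y) := by
            apply mul_le_mul_of_nonneg_right _ hX
            rw [hlam]; linarith
        _ = lam ^ (T + 1) * nrm y := by ring
  have K3 : ∀ (T : ℕ) (y : G → ℝ), ML y = y → MV y = y → MH y = 0 →
      nrm ((P ^ T) y) ≤ lam ^ T * nrm y := by
    intro T
    induction T with
    | zero => intro y _ _ _; simp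
    | succ T ih =>
      intro y hy hv hh
      have hFy : MF y = 0 := by rw [hF, hh, map_zero]
      have hAy : MA y = y := by rw [← hv, hAV]
      have e3 := (ih (MK y) (by rw [cLK, hy]) (by rw [cVK, hv]) (by rw [cHK, hh, map_zero])).trans
        (mul_le_mul_of_nonneg_left (nMK y) (pow_nonneg hlam0 T))
      rw [Ps, hFy, hAy]
      refine (tri _ _ _ _ _ _ _ _ h0 h1 hβ hβ).trans ?_
      have e1 := ih y hy hv hh
      rw [map_zero, nrm_zero, mul_zero, add_zero]
      have hX : 0 ≤ lam ^ T * nrm y := mul_nonneg (pow_nonneg hlam0 T) (nrm_nonneg y)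
      calc β0 * nrm ((P ^ T) y) + β * nrm ((P ^ T) y) + β * nrm ((P ^ T) (MK y))
          ≤ β0 * (lam ^ T * nrm y) + β * (lam ^ T * nrm y) + β * (lam ^ T * nrm y) := by gcongr
        _ = (β0 + 2 * β) * (lam ^ T * nrm y) := by ring
        _ ≤ lam * (lam ^ T * nrm y) := by
            apply mul_le_mul_of_nonneg_right _ hX
            rw [hlam]; linarith
        _ = lam ^ (T + 1) * nrm y := by ring
  have K4 : ∀ (T : ℕ) (y : G → ℝ), ML y = y → MV y = y → MH y = y → MK y = 0 →
      nrm ((P ^ T) y) ≤ lam ^ T * nrm y := by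
    intro T
    induction T with
    | zero => intro y _ _ _ _; simp
    | succ T ih =>
      intro y hy hv hh hk
      have hFy : MF y = y := by rw [hF, hh, hy]
      have hAy : MA y = y := by rw [← hv, hAV]
      rw [Ps, hFy, hAy, hk]
      refine (tri _ _ _ _ _ _ _ _ h0 h1 hβ hβ).trans ?_
      have e1 := ih y hy hv hh hk
      rw [map_zero, nrm_zero, mul_zero, add_zero]
      have hX : 0 ≤ lam ^ T * nrm y := mul_nonneg (pow_nonneg hlam0 T) (nrm_nonneg y)
      calc β0 * nrm ((P ^ T) y) + β1 * nrm ((P ^ T) y) + β * nrm ((P ^ T) y)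
          ≤ β0 * (lam ^ T * nrm y) + β1 * (lam ^ T * nrm y) + β * (lam ^ T * nrm y) := by gcongr
        _ = (β0 + β1 + β) * (lam ^ T * nrm y) := by ring
        _ ≤ lam * (lam ^ T * nrm y) := by
            apply mul_le_mul_of_nonneg_right _ hX
            rw [hlam]; linarith
        _ = lam ^ (T + 1) * nrm y := by ring
  -- T2
  have cVT : ∀ y, MV (Th y) = Th (MV y) := by
    intro y
    have := cVH y
    rw [hH, hH, map_smul, map_add] at this
    have h2 : (MV y + MV (Th y)) = (MV y + Th (MV y)) := by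
      have := congrArg (fun x => (2 : ℝ) • x) this
      simpa [smul_smul] using this
    exact add_left_cancel h2
  have K2 : ∀ (T : ℕ), (∀ y : G → ℝ, ML y = y → MV y = 0 →
        nrm ((P ^ T) y) ≤ 5 / 4 * lam ^ T * nrm y) ∧
      (∀ y : G → ℝ, ML y = y → MV y = 0 → MA y = y →
        nrm ((P ^ T) y) ≤ 9 / 8 * lam ^ T * nrm y) ∧
      (∀ y : G → ℝ, ML y = y → MV y = 0 → MA y = y →
        nrm ((P ^ T) (MH y)) ≤ lam ^ T * nrm y) := by
    intro T
    induction T with
    | zero =>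
      refine ⟨?_, ?_, ?_⟩
      · intro y _ _
        have := nrm_nonneg y
        simp; linarith
      · intro y _ _ _
        have := nrm_nonneg y
        simp; linarith
      · intro y _ _ _
        simpa using nMH y
    | succ T ih =>
      obtain ⟨ih1, ih2, ih3⟩ := ih
      have hl := pow_nonneg hlam0 T
      refine ⟨?_, ?_, ?_⟩
      · intro y hy hv
        have hFy : MF y = MH y := by rw [hF, cLH, hy]
        rw [Ps, hFy]
        refine (tri _ _ _ _ _ _ _ _ h0 h1 hβ hβ).trans ?_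
        have e1 := ih1 y hy hv
        have e2 := (ih1 (MH y) (by rw [cLH, hy]) (by rw [cVH, hv, map_zero])).trans
          (mul_le_mul_of_nonneg_left (nMH y) (by positivity))
        have e3 := (ih2 (MA y) (by rw [cLA, hy]) (by rw [cVA, hv, map_zero]) (iA y)).trans
          (mul_le_mul_of_nonneg_left (nMA y) (by positivity))
        have e4 := (ih1 (MK y) (by rw [cLK, hy]) (by rw [cVK, hv, map_zero])).trans
          (mul_le_mul_of_nonneg_left (nMK y) (by positivity))
        have hX : 0 ≤ lam ^ T * nrm y := mul_nonneg hl (nrm_nonneg y)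
        calc β0 * nrm ((P ^ T) y) + β1 * nrm ((P ^ T) (MH y)) + β * nrm ((P ^ T) (MA y))
              + β * nrm ((P ^ T) (MK y))
            ≤ β0 * (5 / 4 * lam ^ T * nrm y) + β1 * (5 / 4 * lam ^ T * nrm y)
              + β * (9 / 8 * lam ^ T * nrm y) + β * (5 / 4 * lam ^ T * nrm y) := by gcongr
          _ = (5 / 4 * (β0 + β1 + β) + 9 / 8 * β) * (lam ^ T * nrm y) := by ring
          _ ≤ (5 / 4 * lam) * (lam ^ T * nrm y) := by
              apply mul_le_mul_of_nonneg_right _ hX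
              rw [hlam]; linarith
          _ = 5 / 4 * lam ^ (T + 1) * nrm y := by ring
      · intro y hy hv ha
        have hFy : MF y = MH y := by rw [hF, cLH, hy]
        rw [Ps, hFy, ha]
        refine (tri _ _ _ _ _ _ _ _ h0 h1 hβ hβ).trans ?_
        have e1 := ih2 y hy hv ha
        have e2 := ih3 y hy hv ha
        have e4 := (ih1 (MK y) (by rw [cLK, hy]) (by rw [cVK, hv, map_zero])).trans
          (mul_le_mul_of_nonneg_left (nMK y) (by positivity))
        have hX : 0 ≤ lam ^ T * nrm y := mul_nonneg hl (nrm_nonneg y)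
        calc β0 * nrm ((P ^ T) y) + β1 * nrm ((P ^ T) (MH y)) + β * nrm ((P ^ T) y)
              + β * nrm ((P ^ T) (MK y))
            ≤ β0 * (9 / 8 * lam ^ T * nrm y) + β1 * (lam ^ T * nrm y)
              + β * (9 / 8 * lam ^ T * nrm y) + β * (5 / 4 * lam ^ T * nrm y) := by gcongr
          _ = (9 / 8 * β0 + β1 + 9 / 8 * β + 5 / 4 * β) * (lam ^ T * nrm y) := by ring
          _ ≤ (9 / 8 * lam) * (lam ^ T * nrm y) := by
              apply mul_le_mul_of_nonneg_right _ hX
              rw [hlam]; linarith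
          _ = 9 / 8 * lam ^ (T + 1) * nrm y := by ring
      · intro y hy hv ha
        have hFy : MF (MH y) = MH y := by rw [hF, iH, cLH, hy]
        have hAy : MA (MH y) = (1 / 2 : ℝ) • y := by
          rw [hH, map_smul, map_add, ha]
          have : MA (Th y) = 0 := by
            have := hAT y
            rw [ha, hv, map_zero] at this
            exact this
          rw [this, add_zero]
        rw [Ps, hFy, hAy, map_smul]
        refine (tri _ _ _ _ _ _ _ _ h0 h1 hβ hβ).trans ?_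
        rw [nrm_smul (1 / 2) (by norm_num)]
        have e1 := ih3 y hy hv ha
        have e2 := ih2 y hy hv ha
        have e4 := (ih1 (MK (MH y)) (by rw [cLK, cLH, hy])
          (by rw [cVK, cVH, hv, map_zero, map_zero])).trans
          (mul_le_mul_of_nonneg_left ((nMK _).trans (nMH y)) (by positivity))
        have hX : 0 ≤ lam ^ T * nrm y := mul_nonneg hl (nrm_nonneg y)
        calc β0 * nrm ((P ^ T) (MH y)) + β1 * nrm ((P ^ T) (MH y))
              + β * (1 / 2 * nrm ((P ^ T) y)) + β * nrm ((P ^ T) (MK (MH y)))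
            ≤ β0 * (lam ^ T * nrm y) + β1 * (lam ^ T * nrm y)
              + β * (1 / 2 * (9 / 8 * lam ^ T * nrm y)) + β * (5 / 4 * lam ^ T * nrm y) := by gcongr
          _ = (β0 + β1 + 9 / 16 * β + 5 / 4 * β) * (lam ^ T * nrm y) := by ring
          _ ≤ lam * (lam ^ T * nrm y) := by
              apply mul_le_mul_of_nonneg_right _ hX
              rw [hlam]; linarith
          _ = lam ^ (T + 1) * nrm y := by ring
  -- decomposition
  have hdec : y - MK (MH (MV (ML y))) = (y - ML y) + (ML y - MV (ML y)) +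
      (MV (ML y) - MH (MV (ML y))) + (MH (MV (ML y)) - MK (MH (MV (ML y)))) := by abel
  rw [hdec, map_add, map_add, map_add]
  have hl := pow_nonneg hlam0 T
  have hn := nrm_nonneg y
  have nL := nML y
  have nV := (nMV (ML y)).trans nL
  have nH := (nMH (MV (ML y))).trans nV
  have nK := (nMK (MH (MV (ML y)))).trans nH
  have b1 : nrm ((P ^ T) (y - ML y)) ≤ lam ^ T * (2 * nrm y) :=
    (K1 T _ (by rw [map_sub, iL, sub_self])).trans
      (mul_le_mul_of_nonneg_left ((nrm_sub_le _ _).trans (by linarith)) hl)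
  have b2 : nrm ((P ^ T) (ML y - MV (ML y))) ≤ 5 / 4 * lam ^ T * (2 * nrm y) :=
    ((K2 T).1 _ (by rw [map_sub, iL, cLV, iL]) (by rw [map_sub, iV, sub_self])).trans
      (mul_le_mul_of_nonneg_left ((nrm_sub_le _ _).trans (by linarith)) (by positivity))
  have b3 : nrm ((P ^ T) (MV (ML y) - MH (MV (ML y)))) ≤ lam ^ T * (2 * nrm y) :=
    (K3 T _ (by rw [map_sub, cLH, cLV, iL]) (by rw [map_sub, cVH, iV])
      (by rw [map_sub, iH, sub_self])).trans
      (mul_le_mul_of_nonneg_left ((nrm_sub_le _ _).trans (by linarith)) hl)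
  have b4 : nrm ((P ^ T) (MH (MV (ML y)) - MK (MH (MV (ML y))))) ≤ lam ^ T * (2 * nrm y) :=
    (K4 T _ (by rw [map_sub, cLK, cLH, cLV, iL]) (by rw [map_sub, cVK, cVH, iV])
      (by rw [map_sub, cHK, iH]) (by rw [map_sub, iK, sub_self])).trans
      (mul_le_mul_of_nonneg_left ((nrm_sub_le _ _).trans (by linarith)) hl)
  refine (nrm_add_le _ _).trans ?_
  refine (add_le_add ((nrm_add_le _ _).trans (add_le_add ((nrm_add_le _ _).trans
    (add_le_add b1 b2)) b3)) b4).trans ?_
  have hX : 0 ≤ lam ^ T * nrm y := mul_nonneg hl hn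
  nlinarith

end upper

end Pool.Agent.H299.Slow
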