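import Pool.Agent.H299_Slow.Mix

set_option autoImplicit false

namespace Pool.Agent.H299.Slow

open Finset

section gen
variable {G : Type} [Group G] [Fintype G]

lemma run_contract (S S' : Finset G) (hS : S.Nonempty) (hSS : S ⊆ S') (T : ℕ)
    (hT : T ∈ mixed S) (θ : ℝ) (hθ : θ = (S.card : ℝ) / S'.card) (j : ℕ) :
    ∑ g, |law S' (T * j) g - 1 / (Fintype.card G : ℝ)| ≤ 2 * (1 - θ ^ T / 2) ^ j := by
  have hc : (0 : ℝ) < Fintype.card G := by
    have : 0 < Fintype.card G := Fintype.card_pos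
    positivity
  have hS' := hS.mono hSS
  have c1 : (0 : ℝ) < S.card := by exact_mod_cast hS.card_pos
  have c2 : (0 : ℝ) < S'.card := by exact_mod_cast hS'.card_pos
  have c3 : (S.card : ℝ) ≤ S'.card := by exact_mod_cast Finset.card_le_card hSS
  have hθ0 : 0 < θ := by rw [hθ]; positivity
  have hθ1 : θ ≤ 1 := by rw [hθ, div_le_one c2]; exact c3
  have hθT0 : 0 < θ ^ T := pow_pos hθ0 T
  have hθT1 : θ ^ T ≤ 1 := pow_le_one₀ hθ0.le hθ1
  obtain ⟨u, hu⟩ : ∃ u : ℝ, u = 1 / (Fintype.card G : ℝ) := ⟨_, rfl⟩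
  have hT' : ∑ g, |law S T g - u| ≤ 1 / 2 := by
    have h1 : (1 / 2 : ℝ) * ∑ g, |law S T g - 1 / (Fintype.card G : ℝ)| ≤ 1 / 4 := hT
    rw [← hu] at h1; linarith
  have su : ∑ _y : G, u = 1 := by
    rw [Finset.sum_const, Finset.card_univ, nsmul_eq_mul, hu]; field_simp
  rw [← hu]
  induction j with
  | zero =>
    rw [mul_zero, pow_zero, mul_one]
    calc ∑ g, |law S' 0 g - u| ≤ ∑ g, (law S' 0 g + u) := by
          refine Finset.sum_le_sum (fun g _ => ?_)
          have h1 := law_nonneg S' 0 g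
          have h2 : 0 < u := by rw [hu]; positivity
          rw [abs_le]; constructor <;> linarith
      _ = 2 := by
          rw [Finset.sum_add_distrib, law_sum S' hS', su]; norm_num
  | succ j ih =>
    have h0 : ∑ y, (law S' (T * j) y - u) = 0 := by
      rw [Finset.sum_sub_distrib, law_sum S' hS', su]; ring
    have e2 : ∀ x, ∑ y, law S' T (y⁻¹ * x) = 1 := by
      intro x
      rw [← law_sum S' hS' T]
      exact Fintype.sum_equiv ((Equiv.inv G).trans (Equiv.mulRight x)) _ _ (fun y => rfl)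
    have h1 : ∀ x, law S' (T * (j + 1)) x - u =
        ∑ y, (law S' (T * j) y - u) * (θ ^ T * (law S T (y⁻¹ * x) - u) +
          (law S' T (y⁻¹ * x) - θ ^ T * law S T (y⁻¹ * x))) := by
      intro x
      have e1 : ∑ y, (law S' (T * j) y - u) * (θ ^ T * (law S T (y⁻¹ * x) - u) +
          (law S' T (y⁻¹ * x) - θ ^ T * law S T (y⁻¹ * x))) =
          ∑ y, law S' (T * j) y * law S' T (y⁻¹ * x) - u * ∑ y, law S' T (y⁻¹ * x) -
            (θ ^ T * u) * ∑ y, (law S' (T * j) y - u) := by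
        rw [Finset.mul_sum, Finset.mul_sum, ← Finset.sum_sub_distrib, ← Finset.sum_sub_distrib]
        refine Finset.sum_congr rfl (fun y _ => by ring)
      rw [e1, e2, h0, mul_zero, sub_zero, mul_one, ← law_conv]
      congr 2
      ring
    calc ∑ x, |law S' (T * (j + 1)) x - u|
        ≤ ∑ x, ∑ y, |law S' (T * j) y - u| * (θ ^ T * |law S T (y⁻¹ * x) - u| +
          (law S' T (y⁻¹ * x) - θ ^ T * law S T (y⁻¹ * x))) := by
          refine Finset.sum_le_sum (fun x _ => ?_)
          rw [h1 x]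
          refine (Finset.abs_sum_le_sum_abs _ _).trans (Finset.sum_le_sum (fun y _ => ?_))
          rw [abs_mul]
          gcongr
          refine (abs_add_le _ _).trans ?_
          rw [abs_mul, abs_of_pos hθT0]
          have h3 : 0 ≤ law S' T (y⁻¹ * x) - θ ^ T * law S T (y⁻¹ * x) := by
            have := law_dom S S' hS hSS T (y⁻¹ * x)
            rw [← hθ] at this
            linarith
          rw [abs_of_nonneg h3]
      _ = ∑ y, |law S' (T * j) y - u| * (θ ^ T * (∑ g, |law S T g - u|) + (1 - θ ^ T)) := by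
          rw [Finset.sum_comm]
          refine Finset.sum_congr rfl (fun y _ => ?_)
          rw [← Finset.mul_sum, Finset.sum_add_distrib, Finset.sum_sub_distrib, ← Finset.mul_sum,
            ← Finset.mul_sum]
          have f1 : ∑ x, |law S T (y⁻¹ * x) - u| = ∑ g, |law S T g - u| :=
            Fintype.sum_equiv (Equiv.mulLeft y⁻¹) _ _ (fun x => rfl)
          have f2 : ∑ x, law S' T (y⁻¹ * x) = 1 := by
            rw [← law_sum S' hS' T]
            exact Fintype.sum_equiv (Equiv.mulLeft y⁻¹) _ _ (fun x => rfl)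
          have f3 : ∑ x, law S T (y⁻¹ * x) = 1 := by
            rw [← law_sum S hS T]
            exact Fintype.sum_equiv (Equiv.mulLeft y⁻¹) _ _ (fun x => rfl)
          rw [f1, f2, f3, mul_one]
      _ = (∑ y, |law S' (T * j) y - u|) * (θ ^ T * (∑ g, |law S T g - u|) + (1 - θ ^ T)) := by
          rw [Finset.sum_mul]
      _ ≤ (2 * (1 - θ ^ T / 2) ^ j) * (1 - θ ^ T / 2) := by
          have h5 : θ ^ T * (∑ g, |law S T g - u|) + (1 - θ ^ T) ≤ 1 - θ ^ T / 2 := by
            have := mul_le_mul_of_nonneg_left hT' hθT0.le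
            linarith
          have h6 : 0 ≤ θ ^ T * (∑ g, |law S T g - u|) + (1 - θ ^ T) := by
            have : 0 ≤ ∑ g, |law S T g - u| := Finset.sum_nonneg (fun _ _ => abs_nonneg _)
            have := mul_nonneg hθT0.le this
            linarith
          have h7 : 0 ≤ 2 * (1 - θ ^ T / 2) ^ j := by
            have : 0 ≤ 1 - θ ^ T / 2 := by linarith
            positivity
          exact mul_le_mul ih h5 h6 h7
      _ = 2 * (1 - θ ^ T / 2) ^ (j + 1) := by ring

lemma run_bound (S S' : Finset G) (hS : S.Nonempty) (hSS : S ⊆ S') (T : ℕ)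
    (hT : T ∈ mixed S) (C : ℝ) (hC : (S'.card : ℝ) ≤ C * S.card) :
    ((sInf (mixed S') : ℕ) : ℝ) ≤ 5 * T * C ^ T := by
  have c1 : (0 : ℝ) < S.card := by exact_mod_cast hS.card_pos
  have c2 : (0 : ℝ) < S'.card := by exact_mod_cast (hS.mono hSS).card_pos
  have c3 : (S.card : ℝ) ≤ S'.card := by exact_mod_cast Finset.card_le_card hSS
  obtain ⟨θ, hθ⟩ : ∃ θ : ℝ, θ = (S.card : ℝ) / S'.card := ⟨_, rfl⟩
  have hθ0 : 0 < θ := by rw [hθ]; positivity
  have hθ1 : θ ≤ 1 := by rw [hθ, div_le_one c2]; exact c3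
  have hC1 : 1 ≤ C := by
    by_contra h
    push_neg at h
    nlinarith
  have hCθ : 1 ≤ C * θ := by
    rw [hθ, mul_div_assoc', le_div_iff₀ c2, one_mul]; exact hC
  have hθT0 : 0 < θ ^ T := pow_pos hθ0 T
  have hθT1 : θ ^ T ≤ 1 := pow_le_one₀ hθ0.le hθ1
  obtain ⟨j, hj1, hj2⟩ : ∃ j : ℕ, 4 / θ ^ T ≤ j ∧ (j : ℝ) ≤ 4 / θ ^ T + 1 :=
    ⟨⌈4 / θ ^ T⌉₊, Nat.le_ceil _, (Nat.ceil_lt_add_one (by positivity)).le⟩
  have hcon := run_contract S S' hS hSS T hT θ hθ j
  have hpow : (1 - θ ^ T / 2) ^ j ≤ 1 / 4 := by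
    calc (1 - θ ^ T / 2) ^ j ≤ (Real.exp (-(θ ^ T / 2))) ^ j :=
          pow_le_pow_left₀ (by linarith) (Real.one_sub_le_exp_neg _) _
      _ = Real.exp ((j : ℝ) * (-(θ ^ T / 2))) := by rw [← Real.exp_nat_mul]
      _ ≤ Real.exp (-2) := by
          apply Real.exp_le_exp.2
          have : 4 ≤ j * θ ^ T := by rwa [div_le_iff₀ hθT0] at hj1
          nlinarith
      _ ≤ 1 / 4 := by
          rw [Real.exp_neg, inv_eq_one_div]
          apply one_div_le_one_div_of_le (by norm_num)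
          have h3 : (2 : ℝ) ≤ Real.exp 1 := by
            have := Real.add_one_le_exp (1 : ℝ)
            linarith
          calc (4 : ℝ) = 2 ^ 2 := by norm_num
            _ ≤ (Real.exp 1) ^ 2 := pow_le_pow_left₀ (by norm_num) h3 2
            _ = Real.exp 2 := by
                rw [← Real.exp_nat_mul]; norm_num
  have hmem : T * j ∈ mixed S' := by
    show (1 / 2 : ℝ) * ∑ g, |law S' (T * j) g - 1 / (Fintype.card G : ℝ)| ≤ 1 / 4
    linarith
  have h1 : sInf (mixed S') ≤ T * j := Nat.sInf_le hmem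
  have h2 : ((sInf (mixed S') : ℕ) : ℝ) ≤ T * j := by exact_mod_cast h1
  have h3 : 1 / θ ^ T ≤ C ^ T := by
    rw [div_le_iff₀ hθT0, ← mul_pow]
    exact one_le_pow₀ hCθ
  have h4 : (1 : ℝ) ≤ C ^ T := one_le_pow₀ hC1
  have h5 : (j : ℝ) ≤ 5 * C ^ T := by
    have : 4 / θ ^ T = 4 * (1 / θ ^ T) := by ring
    rw [this] at hj2
    linarith
  calc ((sInf (mixed S') : ℕ) : ℝ) ≤ T * j := h2
    _ ≤ T * (5 * C ^ T) := by gcongr
    _ = 5 * T * C ^ T := by ring

lemma law_one_pos (S : Finset G) (T : ℕ) : 0 < law S T 1 := by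
  induction T with
  | zero => simp [law]
  | succ T ih =>
    rw [law_succ]
    unfold lazyStep
    have := Finset.sum_nonneg (s := S) (f := fun s => law S T (1 * s⁻¹)) (fun s _ => law_nonneg S T _)
    positivity

lemma ev_pos (S : Finset G) (g : G) (hg : g ∈ Subgroup.closure (S : Set G)) :
    ∃ T0, ∀ T ≥ T0, 0 < law S T g := by
  have hmul : ∀ x y : G, (∃ T0, ∀ T ≥ T0, 0 < law S T x) → (∃ T0, ∀ T ≥ T0, 0 < law S T y) →
      (∃ T0, ∀ T ≥ T0, 0 < law S T (x * y)) := by
    rintro x y ⟨a, ha⟩ ⟨b, hb⟩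
    refine ⟨b + a, fun T hT => ?_⟩
    have h1 : T = (T - a) + a := by omega
    rw [h1, law_conv]
    have h2 : law S a x * law S (T - a) (x⁻¹ * (x * y)) ≤
        ∑ z, law S a z * law S (T - a) (z⁻¹ * (x * y)) :=
      Finset.single_le_sum (f := fun z => law S a z * law S (T - a) (z⁻¹ * (x * y)))
        (fun z _ => mul_nonneg (law_nonneg _ _ _) (law_nonneg _ _ _)) (mem_univ x)
    rw [inv_mul_cancel_left] at h2
    have h3 := ha a le_rfl
    have h4 := hb (T - a) (by omega)
    exact lt_of_lt_of_le (mul_pos h3 h4) h2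
  have hone : ∃ T0, ∀ T ≥ T0, 0 < law S T 1 := ⟨0, fun T _ => law_one_pos S T⟩
  induction hg using Subgroup.closure_induction with
  | mem x hx =>
    have hx' : x ∈ S := by exact_mod_cast hx
    refine ⟨1, fun T hT => ?_⟩
    obtain ⟨k, rfl⟩ : ∃ k, T = k + 1 := ⟨T - 1, by omega⟩
    rw [law_succ]
    unfold lazyStep
    have h0 := law_nonneg S k x
    have hc : (0 : ℝ) < S.card := by exact_mod_cast Finset.card_pos.2 ⟨x, hx'⟩
    have h1 : law S k (x * x⁻¹) ≤ ∑ s ∈ S, law S k (x * s⁻¹) :=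
      Finset.single_le_sum (f := fun s => law S k (x * s⁻¹)) (fun s _ => law_nonneg _ _ _) hx'
    rw [mul_inv_cancel] at h1
    have h2 := law_one_pos S k
    have h3 : 0 < ∑ s ∈ S, law S k (x * s⁻¹) := lt_of_lt_of_le h2 h1
    positivity
  | one => exact hone
  | mul x y _ _ hx hy => exact hmul x y hx hy
  | inv x _ hx =>
    have hpow : ∀ k : ℕ, ∃ T0, ∀ T ≥ T0, 0 < law S T (x ^ k) := by
      intro k
      induction k with
      | zero => simpa using hone
      | succ k ih =>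
        rw [pow_succ]
        exact hmul _ _ ih hx
    have h1 : x⁻¹ = x ^ (orderOf x - 1) := by
      rw [inv_eq_iff_mul_eq_one, ← pow_succ']
      rw [Nat.sub_add_cancel (orderOf_pos x), pow_orderOf_eq_one]
    rw [h1]
    exact hpow _

lemma mixed_gen (S : Finset G) (hS : S.Nonempty) (hg : Subgroup.closure (S : Set G) = ⊤) :
    (mixed S).Nonempty := by
  have hc : (0 : ℝ) < Fintype.card G := by
    have : 0 < Fintype.card G := Fintype.card_pos
    positivity
  have h1 : ∀ g : G, ∃ T0, ∀ T ≥ T0, 0 < law S T g := fun g => ev_pos S g (by rw [hg]; trivial)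
  choose f hf using h1
  have h2 : ∀ g, 0 < law S (∑ x, f x) g := fun g =>
    hf g _ (Finset.single_le_sum (fun _ _ => Nat.zero_le _) (mem_univ g))
  obtain ⟨x0, _, hx0⟩ := Finset.exists_min_image univ (law S (∑ x, f x)) ⟨1, mem_univ _⟩
  refine mixed_of_lb S hS (∑ x, f x) (law S (∑ x, f x) x0 * Fintype.card G)
    (mul_pos (h2 x0) hc) (fun g => ?_)
  rw [mul_div_cancel_right₀ _ hc.ne']
  exact hx0 g (mem_univ _)

end gen

end Pool.Agent.H299.Slow
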