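import Pool.Agent.H299_Slow.Grp
import Pool.Agent.H299_Slow.Ops

set_option autoImplicit false

namespace Pool.Agent.H299.Slow

open Finset

section conc
variable {t m e q N : ℕ} [NeZero t] [NeZero m] [NeZero e] [NeZero q]

def swE {α : Type} (κ : Fin N → Bool) : (Fin N → α × α) ≃ (Fin N → α × α) where
  toFun v i := sw (κ i) (v i)
  invFun v i := sw (κ i) (v i)
  left_inv v := by funext i; simp only [sw_sw]; cases κ i <;> simp
  right_inv v := by funext i; simp only [sw_sw]; cases κ i <;> simp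

def xorE {ι : Type} (κ : ι → Bool) : (ι → Bool) ≃ (ι → Bool) where
  toFun v i := xor (κ i) (v i)
  invFun v i := xor (κ i) (v i)
  left_inv v := by funext i; cases κ i <;> simp
  right_inv v := by funext i; cases κ i <;> simp

def xorB (a : Bool) : Bool ≃ Bool where
  toFun b := xor a b
  invFun b := xor a b
  left_inv b := by cases a <;> simp
  right_inv b := by cases a <;> simp

abbrev fT (_ : Unit) : GG t m e q N := fH true

lemma cLH (y : (GG t m e q N) → ℝ) : M fL (M fH y) = M fH (M fL y) :=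
  M_comm _ _ (fun h k => by apply gext <;> simp [fL, fH]) y
lemma cLA (y : (GG t m e q N) → ℝ) : M fL (M fA y) = M fA (M fL y) :=
  M_comm _ _ (fun h k => by apply gext <;> simp [fL, fA]) y
lemma cLK (y : (GG t m e q N) → ℝ) : M fL (M fK y) = M fK (M fL y) :=
  M_comm _ _ (fun h k => by apply gext <;> simp [fL, fK]) y
lemma cLV (y : (GG t m e q N) → ℝ) : M fL (M fV y) = M fV (M fL y) :=
  M_comm _ _ (fun h k => by apply gext <;> simp [fL, fV]) y
lemma cHK (y : (GG t m e q N) → ℝ) : M fH (M fK y) = M fK (M fH y) :=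
  M_comm _ _ (fun h k => by apply gext <;> simp [fH, fK, Bool.xor_comm]) y
lemma cVA (y : (GG t m e q N) → ℝ) : M fV (M fA y) = M fA (M fV y) :=
  M_comm _ _ (fun h k => by apply gext <;> simp [fV, fA, add_comm]) y
lemma cVH (y : (GG t m e q N) → ℝ) : M fV (M fH y) = M fH (M fV y) :=
  M_comm' _ _ (fun z => swE (fun _ => z)) (fun h k => by apply gext <;> simp [fV, fH, swE]) y
lemma cVK (y : (GG t m e q N) → ℝ) : M fV (M fK y) = M fK (M fV y) :=
  M_comm' _ _ (fun z => swE z.2) (fun h k => by apply gext <;> simp [fV, fK, swE]) y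
lemma iL (y : (GG t m e q N) → ℝ) : M fL (M fL y) = M fL y :=
  M_absorb _ _ (fun h => Equiv.addLeft h) (fun h k => by apply gext <;> simp [fL]) y
lemma iH (y : (GG t m e q N) → ℝ) : M fH (M fH y) = M fH y :=
  M_absorb _ _ (fun h => xorB h) (fun h k => by apply gext <;> simp [fH, xorB]) y
lemma iA (y : (GG t m e q N) → ℝ) : M fA (M fA y) = M fA y :=
  M_absorb _ _ (fun h => Equiv.addLeft h) (fun h k => by apply gext <;> simp [fA]) y
lemma iV (y : (GG t m e q N) → ℝ) : M fV (M fV y) = M fV y :=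
  M_absorb _ _ (fun h => Equiv.addLeft h) (fun h k => by apply gext <;> simp [fV]) y
lemma iK (y : (GG t m e q N) → ℝ) : M fK (M fK y) = M fK y :=
  M_absorb _ _ (fun h => (Equiv.addLeft h.1).prodCongr (xorE h.2))
    (fun h k => by apply gext <;> simp [fK, xorE]) y
lemma hAV (y : (GG t m e q N) → ℝ) : M fA (M fV y) = M fV y :=
  M_absorb _ _ (fun h => Equiv.addLeft (fun i => (h i, 0)))
    (fun h k => by apply gext <;> simp [fA, fV]) y

lemma hFF (y : (GG t m e q N) → ℝ) : M fF y = M fL (M fH y) := by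
  funext g
  simp only [M_apply]
  rw [← Finset.sum_div, Fintype.sum_prod_type, div_div, Fintype.card_prod]
  congr 1
  · refine Finset.sum_congr rfl (fun l _ => Finset.sum_congr rfl (fun z _ => ?_))
    congr 1
    rw [mul_assoc]
    congr 1
    apply gext <;> simp [fF, fL, fH]
  · push_cast; ring

lemma hHH (y : (GG t m e q N) → ℝ) : M fH y = (1 / 2 : ℝ) • (y + M fT y) := by
  funext g
  have h1 : (fH false : (GG t m e q N)) = 1 := by apply gext <;> simp [fH]
  simp only [M_apply, Fintype.sum_bool, h1, mul_one, Pi.smul_apply, Pi.add_apply, smul_eq_mul,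
    Fintype.card_bool, Finset.univ_unique, Finset.sum_singleton, Fintype.card_unit]
  push_cast
  ring

lemma hAT (y : (GG t m e q N) → ℝ) : M fA (M fT (M fA y)) = M fT (M fV y) := by
  funext g
  simp only [M_apply, Finset.univ_unique, Finset.sum_singleton, Fintype.card_unit, Nat.cast_one,
    div_one]
  rw [← Finset.sum_div, div_div, ← Fintype.sum_prod_type']
  have hc : ((Fintype.card (Fin N → ZMod q) : ℝ) * (Fintype.card (Fin N → ZMod q) : ℝ)) =
      (Fintype.card (Fin N → ZMod q × ZMod q) : ℝ) := by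
    simp [ZMod.card, mul_pow]
  rw [hc]
  congr 1
  refine Fintype.sum_equiv ((Equiv.prodComm _ _).trans (Equiv.arrowProdEquivProdArrow _ _ _).symm)
    _ _ (fun x => ?_)
  congr 1
  rw [mul_assoc, mul_assoc, mul_assoc]
  congr 1
  apply gext <;> simp [fA, fV, fH, fT, Equiv.arrowProdEquivProdArrow]

def allE : ((ZMod e × (Fin N → Bool)) × Bool) × ((Fin N → ZMod q × ZMod q) × (ZMod t × ZMod m)) ≃
    GG t m e q N where
  toFun x := ⟨x.2.2.1, x.2.2.2, x.1.1.1, x.1.2, fun i => xor (x.1.1.2 i) x.1.2, x.2.1⟩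
  invFun g := (((g.e, fun i => xor (g.k i) g.z), g.z), (g.u, (g.l1, g.l2)))
  left_inv x := by
    obtain ⟨⟨⟨a, b⟩, c⟩, d, e1, e2⟩ := x
    simp
  right_inv g := by
    apply gext <;> simp

lemma hU (y : (GG t m e q N) → ℝ) (g : (GG t m e q N)) :
    M fK (M fH (M fV (M fL y))) g = (∑ x, y x) / Fintype.card (GG t m e q N) := by
  simp only [M_apply]
  simp only [← Finset.sum_div, div_div]
  have h1 : ∑ a : ZMod e × (Fin N → Bool), ∑ b : Bool, ∑ c : Fin N → ZMod q × ZMod q,
      ∑ d : ZMod t × ZMod m, y (g * fK a * fH b * fV c * fL d) = ∑ x, y x := by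
    rw [← Fintype.sum_prod_type' (f := fun a b => ∑ c : Fin N → ZMod q × ZMod q,
      ∑ d : ZMod t × ZMod m, y (g * fK a * fH b * fV c * fL d))]
    have h2 : ∀ ab : (ZMod e × (Fin N → Bool)) × Bool, (∑ c : Fin N → ZMod q × ZMod q,
      ∑ d : ZMod t × ZMod m, y (g * fK ab.1 * fH ab.2 * fV c * fL d)) =
      ∑ cd : (Fin N → ZMod q × ZMod q) × (ZMod t × ZMod m),
        y (g * fK ab.1 * fH ab.2 * fV cd.1 * fL cd.2) := by
      intro ab
      rw [Fintype.sum_prod_type]
    simp only [h2]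
    rw [← Fintype.sum_prod_type' (f := fun (ab : (ZMod e × (Fin N → Bool)) × Bool)
      (cd : (Fin N → ZMod q × ZMod q) × (ZMod t × ZMod m)) =>
        y (g * fK ab.1 * fH ab.2 * fV cd.1 * fL cd.2))]
    refine Fintype.sum_equiv (allE.trans (Equiv.mulLeft g)) _ _ (fun x => ?_)
    congr 1
    simp only [Equiv.trans_apply, Equiv.coe_mulLeft, mul_assoc]
    congr 1
    apply gext <;> simp [fK, fH, fV, fL, allE]
  rw [h1]
  congr 1
  have h3 : Fintype.card (GG t m e q N) = Fintype.card (((ZMod e × (Fin N → Bool)) × Bool) ×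
      ((Fin N → ZMod q × ZMod q) × (ZMod t × ZMod m))) := (Fintype.card_congr allE).symm
  rw [h3]
  simp only [Fintype.card_prod]
  push_cast
  ring

theorem upperGX (β0 β1 β : ℝ) (h0 : 0 ≤ β0) (h1 : 0 ≤ β1) (hβ : 0 ≤ β)
    (hsum : β0 + β1 + 2 * β = 1) (hb : 2 * β ≤ β1) (T : ℕ) (y : (GG t m e q N) → ℝ) (hy : nrm y ≤ 1)
    (hs : ∑ x, y x = 1) :
    nrm (((PP β0 β1 β β (M fF) (M fA) (M fK)) ^ T) (y - fun _ => 1 / (Fintype.card (GG t m e q N) : ℝ))) ≤
      9 * (1 - β / 10) ^ T := by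
  have h := upper (M (fF (t := t) (m := m) (e := e) (q := q) (N := N))) (M fL) (M fH) (M fT) (M fA)
    (M fV) (M fK)
    (nrm_M_le _) (nrm_M_le _) (nrm_M_le _) (nrm_M_le _) (nrm_M_le _) hFF hHH cLH cLA cLK cLV cVH cVK
    cVA cHK iL iH iA iV iK hAV hAT β0 β1 β h0 h1 hβ hsum hb T y
  have hu : M fK (M fH (M fV (M fL y))) = fun _ => 1 / (Fintype.card (GG t m e q N) : ℝ) := by
    funext g
    rw [hU, hs]
  rw [hu] at h
  refine h.trans ?_
  have hp : (0 : ℝ) ≤ (1 - β / 10) ^ T := pow_nonneg (by linarith) T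
  nlinarith [nrm_nonneg y]

end conc

end Pool.Agent.H299.Slow
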