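import Pool.Agent.H299_Slow.Up

set_option autoImplicit false

namespace Pool.Agent.H299.Slow

open Finset

section gen
variable {G : Type} [Group G] [Fintype G]

/-- one step of the lazy walk with step set `S` -/
noncomputable def lazyStep (S : Finset G) (p : G → ℝ) (x : G) : ℝ :=
  p x / 2 + (∑ s ∈ S, p (x * s⁻¹)) / (2 * (S.card : ℝ))

open scoped Classical in
/-- law of the lazy walk at time `T` started at `1` -/
noncomputable def law (S : Finset G) (T : ℕ) : G → ℝ :=
  (lazyStep S)^[T] (fun x => if x = 1 then 1 else 0)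

lemma sum_inv (S : Finset G) (hS : ∀ s ∈ S, s⁻¹ ∈ S) (f : G → ℝ) :
    ∑ s ∈ S, f s⁻¹ = ∑ s ∈ S, f s :=
  Finset.sum_nbij' (fun s => s⁻¹) (fun s => s⁻¹) (fun s hs => hS s hs) (fun s hs => hS s hs)
    (by simp) (by simp) (by simp)

lemma law_succ (S : Finset G) (T : ℕ) : law S (T + 1) = lazyStep S (law S T) := by
  unfold law
  rw [Function.iterate_succ_apply']

lemma pair_step (S : Finset G) (p Φ : G → ℝ) :
    ∑ g, lazyStep S p g * Φ g =
      ∑ g, p g * (Φ g / 2 + (∑ s ∈ S, Φ (g * s)) / (2 * (S.card : ℝ))) := by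
  have h1 : ∑ g, (∑ s ∈ S, p (g * s⁻¹)) * Φ g = ∑ g, p g * ∑ s ∈ S, Φ (g * s) := by
    simp only [Finset.sum_mul, Finset.mul_sum]
    rw [Finset.sum_comm, Finset.sum_comm (s := univ) (t := S)]
    refine Finset.sum_congr rfl (fun s _ => ?_)
    exact Fintype.sum_equiv (Equiv.mulRight s⁻¹) _ _ (fun g => by simp)
  have h2 : ∀ g, lazyStep S p g * Φ g =
      p g * (Φ g / 2) + ((∑ s ∈ S, p (g * s⁻¹)) * Φ g) / (2 * (S.card : ℝ)) := by
    intro g; unfold lazyStep; ring
  have h3 : ∀ g, p g * (Φ g / 2 + (∑ s ∈ S, Φ (g * s)) / (2 * (S.card : ℝ))) =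
      p g * (Φ g / 2) + (p g * ∑ s ∈ S, Φ (g * s)) / (2 * (S.card : ℝ)) := by
    intro g; ring
  simp only [h2, h3, Finset.sum_add_distrib, ← Finset.sum_div]
  rw [h1]

lemma law_nonneg (S : Finset G) (T : ℕ) (g : G) : 0 ≤ law S T g := by
  induction T generalizing g with
  | zero => unfold law; simp only [Function.iterate_zero, id]; split_ifs <;> norm_num
  | succ T ih =>
    rw [law_succ]
    unfold lazyStep
    have := Finset.sum_nonneg (s := S) (f := fun s => law S T (g * s⁻¹)) (fun s _ => ih _)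
    have h2 := ih g
    positivity

lemma law_sum (S : Finset G) (hS : S.Nonempty) (T : ℕ) : ∑ g, law S T g = 1 := by
  induction T with
  | zero =>
    unfold law
    simp only [Function.iterate_zero, id]
    rw [Finset.sum_eq_single (1 : G) (fun b _ hb => if_neg hb) (fun h => absurd (mem_univ _) h)]
    simp
  | succ T ih =>
    rw [law_succ]
    have h := pair_step S (law S T) (fun _ => 1)
    simp only [mul_one] at h
    rw [h]
    have hc : (S.card : ℝ) ≠ 0 := by
      have := hS.card_pos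
      positivity
    have : ∀ g, law S T g * (1 / 2 + (∑ s ∈ S, (1 : ℝ)) / (2 * (S.card : ℝ))) = law S T g := by
      intro g
      rw [Finset.sum_const, nsmul_eq_mul]
      field_simp
      ring
    simp only [this, ih]

end gen

section conc
variable {t m e q N : ℕ} [NeZero t] [NeZero m] [NeZero e] [NeZero q]

noncomputable def SF : Finset (GG t m e q N) := univ.image fF
noncomputable def SA : Finset (GG t m e q N) := univ.image fA
noncomputable def SK : Finset (GG t m e q N) := univ.image fK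
noncomputable def SR : Finset (GG t m e q N) := univ.image fR
/-- the small generating set -/
noncomputable def SS : Finset (GG t m e q N) := (SF ∪ SA) ∪ SK
/-- the large generating set -/
noncomputable def SS' : Finset (GG t m e q N) := (SF ∪ SA) ∪ SR

lemma fF_inj : Function.Injective (fF : _ → (GG t m e q N)) := by
  rintro ⟨⟨a, b⟩, c⟩ ⟨⟨a', b'⟩, c'⟩ h
  have h1 := congrArg GG.l1 h
  have h2 := congrArg GG.l2 h
  have h3 := congrArg GG.z h
  simp only [fF] at h1 h2 h3
  simp [h1, h2, h3]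
lemma fA_inj : Function.Injective (fA : _ → (GG t m e q N)) := by
  intro a b h
  funext i
  have h1 := congrFun (congrArg GG.u h) i
  simpa [fA] using h1
lemma fK_inj : Function.Injective (fK : _ → (GG t m e q N)) := by
  rintro ⟨a, b⟩ ⟨a', b'⟩ h
  have h1 := congrArg GG.e h
  have h2 := congrArg GG.k h
  simp only [fK] at h1 h2
  simp [h1, h2]
lemma fR_inj : Function.Injective (fR : _ → (GG t m e q N)) := by
  rintro ⟨a, b, c⟩ ⟨a', b', c'⟩ h
  have h1 := congrArg GG.l1 h
  have h2 := congrArg GG.e h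
  have h3 := congrArg GG.k h
  simp only [fR] at h1 h2 h3
  simp [h1, h2, h3]

lemma FA_inter : (SF ∩ SA : Finset (GG t m e q N)) = {1} := by
  ext g
  simp only [SF, SA, mem_inter, mem_image, mem_univ, true_and, mem_singleton]
  constructor
  · rintro ⟨⟨⟨⟨a, b⟩, c⟩, rfl⟩, ⟨x, hx⟩⟩
    have h1 := congrArg GG.l1 hx
    have h2 := congrArg GG.l2 hx
    have h3 := congrArg GG.z hx
    simp only [fF, fA] at h1 h2 h3
    subst h3
    apply gext <;> simp [fF, ← h1, ← h2]
  · rintro rfl
    exact ⟨⟨((0, 0), false), by apply gext <;> simp [fF]⟩, ⟨0, by apply gext <;> simp [fA]⟩⟩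

lemma FAK_inter : ((SF ∪ SA) ∩ SK : Finset (GG t m e q N)) = {1} := by
  ext g
  simp only [SF, SA, SK, mem_inter, mem_union, mem_image, mem_univ, true_and, mem_singleton]
  constructor
  · rintro ⟨⟨⟨⟨a, b⟩, c⟩, rfl⟩ | ⟨x, rfl⟩, ⟨⟨y, κ⟩, hx⟩⟩
    · have h1 := congrArg GG.l1 hx
      have h2 := congrArg GG.l2 hx
      have h3 := congrArg GG.z hx
      simp only [fF, fK] at h1 h2 h3
      subst h3
      apply gext <;> simp [fF, ← h1, ← h2]
    · have h1 := congrArg GG.u hx
      have h2 : x = 0 := by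
        funext i
        have := congrFun h1 i
        simp only [fK, fA] at this
        have := congrArg Prod.fst this
        simpa using this.symm
      subst h2
      apply gext <;> simp [fA]
  · rintro rfl
    exact ⟨Or.inl ⟨((0, 0), false), by apply gext <;> simp [fF]⟩,
      ⟨(0, fun _ => false), by apply gext <;> simp [fK]⟩⟩

/-- elements counted twice in `SS'` -/
def f1 (x : ZMod t) : GG t m e q N := ⟨x, 0, 0, false, fun _ => false, fun _ => 0⟩
lemma f1_inj : Function.Injective (f1 : _ → (GG t m e q N)) := by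
  intro a b h
  have := congrArg GG.l1 h
  simpa [f1] using this

lemma FAR_inter : ((SF ∪ SA) ∩ SR : Finset (GG t m e q N)) = univ.image f1 := by
  ext g
  simp only [SF, SA, SR, mem_inter, mem_union, mem_image, mem_univ, true_and]
  constructor
  · rintro ⟨⟨⟨⟨a, b⟩, c⟩, rfl⟩ | ⟨x, rfl⟩, ⟨⟨l, y, κ⟩, hx⟩⟩
    · have h2 := congrArg GG.l2 hx
      have h3 := congrArg GG.z hx
      simp only [fF, fR] at h2 h3
      subst h3
      exact ⟨a, by apply gext <;> simp [fF, f1, ← h2]⟩
    · have h1 := congrArg GG.u hx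
      have h2 : x = 0 := by
        funext i
        have := congrFun h1 i
        simp only [fR, fA] at this
        have := congrArg Prod.fst this
        simpa using this.symm
      subst h2
      refine ⟨0, gext ?_ ?_ ?_ ?_ ?_ ?_⟩ <;> simp [fA, f1] <;> (intro i; rfl)
  · rintro ⟨a, rfl⟩
    exact ⟨Or.inl ⟨((a, 0), false), by apply gext <;> simp [fF, f1]⟩,
      ⟨(a, 0, fun _ => false), by apply gext <;> simp [fR, f1]⟩⟩

lemma sum_SS (f : (GG t m e q N) → ℝ) :
    ∑ s ∈ SS, f s = ∑ x, f (fF x) + ∑ x, f (fA x) + ∑ x, f (fK x) - 2 * f 1 := by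
  have h1 := Finset.sum_union_inter (s₁ := (SF : Finset (GG t m e q N))) (s₂ := SA) (f := f)
  have h2 := Finset.sum_union_inter (s₁ := (SF ∪ SA : Finset (GG t m e q N))) (s₂ := SK) (f := f)
  rw [FA_inter, Finset.sum_singleton] at h1
  rw [FAK_inter, Finset.sum_singleton] at h2
  have hF : ∑ s ∈ (SF : Finset (GG t m e q N)), f s = ∑ x, f (fF x) :=
    Finset.sum_image (fun a _ b _ h => fF_inj h)
  have hA : ∑ s ∈ (SA : Finset (GG t m e q N)), f s = ∑ x, f (fA x) :=
    Finset.sum_image (fun a _ b _ h => fA_inj h)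
  have hK : ∑ s ∈ (SK : Finset (GG t m e q N)), f s = ∑ x, f (fK x) :=
    Finset.sum_image (fun a _ b _ h => fK_inj h)
  unfold SS
  linarith

lemma sum_SS' (f : (GG t m e q N) → ℝ) :
    ∑ s ∈ SS', f s = ∑ x, f (fF x) + ∑ x, f (fA x) + ∑ x, f (fR x) - ∑ x, f (f1 x) - f 1 := by
  have h1 := Finset.sum_union_inter (s₁ := (SF : Finset (GG t m e q N))) (s₂ := SA) (f := f)
  have h2 := Finset.sum_union_inter (s₁ := (SF ∪ SA : Finset (GG t m e q N))) (s₂ := SR) (f := f)
  rw [FA_inter, Finset.sum_singleton] at h1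
  rw [FAR_inter, Finset.sum_image (fun a _ b _ h => f1_inj h)] at h2
  have hF : ∑ s ∈ (SF : Finset (GG t m e q N)), f s = ∑ x, f (fF x) :=
    Finset.sum_image (fun a _ b _ h => fF_inj h)
  have hA : ∑ s ∈ (SA : Finset (GG t m e q N)), f s = ∑ x, f (fA x) :=
    Finset.sum_image (fun a _ b _ h => fA_inj h)
  have hR : ∑ s ∈ (SR : Finset (GG t m e q N)), f s = ∑ x, f (fR x) :=
    Finset.sum_image (fun a _ b _ h => fR_inj h)
  unfold SS'
  linarith

lemma card_SS (hA : q ^ N = m) (hK : e * 2 ^ N = m) :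
    ((SS : Finset (GG t m e q N)).card : ℝ) = 2 * t * m + 2 * m - 2 := by
  have h := sum_SS (t := t) (m := m) (e := e) (q := q) (N := N) (fun _ => 1)
  simp only [Finset.sum_const, nsmul_eq_mul, mul_one, Finset.card_univ, Fintype.card_prod,
    ZMod.card, Fintype.card_bool, Fintype.card_pi, Finset.prod_const, Fintype.card_fin] at h
  rw [h]
  have hA' : (q : ℝ) ^ N = m := by exact_mod_cast hA
  have hK' : (e : ℝ) * 2 ^ N = m := by exact_mod_cast hK
  push_cast
  rw [hA', hK']
  ring

lemma card_SS' (hA : q ^ N = m) (hK : e * 2 ^ N = m) :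
    ((SS' : Finset (GG t m e q N)).card : ℝ) = 3 * t * m + m - t - 1 := by
  have h := sum_SS' (t := t) (m := m) (e := e) (q := q) (N := N) (fun _ => 1)
  simp only [Finset.sum_const, nsmul_eq_mul, mul_one, Finset.card_univ, Fintype.card_prod,
    ZMod.card, Fintype.card_bool, Fintype.card_pi, Finset.prod_const, Fintype.card_fin] at h
  rw [h]
  have hA' : (q : ℝ) ^ N = m := by exact_mod_cast hA
  have hK' : (e : ℝ) * 2 ^ N = m := by exact_mod_cast hK
  push_cast
  rw [hA', hK']
  ring

lemma one_mem_SS : (1 : (GG t m e q N)) ∈ SS := by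
  unfold SS SF
  refine mem_union_left _ (mem_union_left _ ?_)
  exact mem_image.2 ⟨((0, 0), false), mem_univ _, by apply gext <;> simp [fF]⟩

lemma SF_inv (s : (GG t m e q N)) (hs : s ∈ (SF : Finset (GG t m e q N))) : s⁻¹ ∈ (SF : Finset (GG t m e q N)) := by
  obtain ⟨⟨⟨a, b⟩, c⟩, _, rfl⟩ := mem_image.1 hs
  exact mem_image.2 ⟨((-a, -b), c), mem_univ _, by apply gext <;> simp [fF]⟩
lemma SA_inv (s : (GG t m e q N)) (hs : s ∈ (SA : Finset (GG t m e q N))) : s⁻¹ ∈ (SA : Finset (GG t m e q N)) := by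
  obtain ⟨x, _, rfl⟩ := mem_image.1 hs
  exact mem_image.2 ⟨-x, mem_univ _, by apply gext <;> simp [fA]⟩
lemma SK_inv (s : (GG t m e q N)) (hs : s ∈ (SK : Finset (GG t m e q N))) : s⁻¹ ∈ (SK : Finset (GG t m e q N)) := by
  obtain ⟨⟨a, b⟩, _, rfl⟩ := mem_image.1 hs
  exact mem_image.2 ⟨(-a, b), mem_univ _, by apply gext <;> simp [fK]⟩
lemma SR_inv (s : (GG t m e q N)) (hs : s ∈ (SR : Finset (GG t m e q N))) : s⁻¹ ∈ (SR : Finset (GG t m e q N)) := by
  obtain ⟨⟨a, b, c⟩, _, rfl⟩ := mem_image.1 hs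
  exact mem_image.2 ⟨(-a, -b, c), mem_univ _, by apply gext <;> simp [fR]⟩
lemma SS_inv (s : (GG t m e q N)) (hs : s ∈ (SS : Finset (GG t m e q N))) : s⁻¹ ∈ (SS : Finset (GG t m e q N)) := by
  unfold SS at hs ⊢
  simp only [mem_union] at hs ⊢
  rcases hs with (h | h) | h
  · exact Or.inl (Or.inl (SF_inv s h))
  · exact Or.inl (Or.inr (SA_inv s h))
  · exact Or.inr (SK_inv s h)
lemma SS'_inv (s : (GG t m e q N)) (hs : s ∈ (SS' : Finset (GG t m e q N))) : s⁻¹ ∈ (SS' : Finset (GG t m e q N)) := by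
  unfold SS' at hs ⊢
  simp only [mem_union] at hs ⊢
  rcases hs with (h | h) | h
  · exact Or.inl (Or.inl (SF_inv s h))
  · exact Or.inl (Or.inr (SA_inv s h))
  · exact Or.inr (SR_inv s h)

lemma SK_sub_SR : (SK : Finset (GG t m e q N)) ⊆ SR := by
  intro s hs
  obtain ⟨⟨a, b⟩, _, rfl⟩ := mem_image.1 hs
  exact mem_image.2 ⟨(0, a, b), mem_univ _, by apply gext <;> simp [fR, fK]⟩
lemma SS_sub : (SS : Finset (GG t m e q N)) ⊆ SS' := by
  unfold SS SS'
  exact Finset.union_subset_union_right SK_sub_SR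

lemma SS_ssub (ht : 2 ≤ t) (he : 2 ≤ e) : (SS : Finset (GG t m e q N)) ⊂ SS' := by
  refine Finset.ssubset_iff_subset_ne.2 ⟨SS_sub, fun h => ?_⟩
  haveI : Fact (1 < t) := ⟨ht⟩
  haveI : Fact (1 < e) := ⟨he⟩
  have h1 : (fR (1, 1, fun _ => false) : (GG t m e q N)) ∈ (SS : Finset (GG t m e q N)) := by
    rw [h]
    unfold SS' SR
    exact mem_union_right _ (mem_image_of_mem _ (mem_univ _))
  unfold SS SF SA SK at h1
  simp only [mem_union, mem_image, mem_univ, true_and] at h1
  rcases h1 with (⟨x, hx⟩ | ⟨x, hx⟩) | ⟨x, hx⟩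
  · have := congrArg GG.e hx
    simp [fF, fR] at this
  · have := congrArg GG.e hx
    simp [fA, fR] at this
  · have := congrArg GG.l1 hx
    simp [fK, fR] at this

lemma SS'_len (s : (GG t m e q N)) (hs : s ∈ (SS' : Finset (GG t m e q N))) :
    ∃ l : List (GG t m e q N), l.length ≤ 2 ∧ (∀ x ∈ l, x ∈ (SS : Finset (GG t m e q N))) ∧ l.prod = s := by
  unfold SS' at hs
  simp only [mem_union] at hs
  rcases hs with h | h
  · refine ⟨[s], by simp, ?_, by simp⟩
    intro x hx
    simp only [List.mem_singleton] at hx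
    subst hx
    unfold SS
    simp only [mem_union]
    exact Or.inl h
  · obtain ⟨⟨a, b, c⟩, _, rfl⟩ := mem_image.1 h
    refine ⟨[fF ((a, 0), false), fK (b, c)], by simp, ?_, ?_⟩
    · intro x hx
      simp only [List.mem_cons, List.not_mem_nil, or_false] at hx
      unfold SS SF SK
      simp only [mem_union]
      rcases hx with rfl | rfl
      · exact Or.inl (Or.inl (mem_image_of_mem _ (mem_univ _)))
      · exact Or.inr (mem_image_of_mem _ (mem_univ _))
    · simp only [List.prod_cons, List.prod_nil, mul_one]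
      apply gext <;> simp [fF, fK, fR]

lemma SS_closure : Subgroup.closure ((SS : Finset (GG t m e q N)) : Set (GG t m e q N)) = ⊤ := by
  rw [eq_top_iff]
  intro g _
  have hF : ∀ x, (fF x : (GG t m e q N)) ∈ Subgroup.closure ((SS : Finset (GG t m e q N)) : Set (GG t m e q N)) := fun x =>
    Subgroup.subset_closure (by
      unfold SS SF
      simp)
  have hA : ∀ x, (fA x : (GG t m e q N)) ∈ Subgroup.closure ((SS : Finset (GG t m e q N)) : Set (GG t m e q N)) := fun x =>
    Subgroup.subset_closure (by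
      unfold SS SA
      simp)
  have hK : ∀ x, (fK x : (GG t m e q N)) ∈ Subgroup.closure ((SS : Finset (GG t m e q N)) : Set (GG t m e q N)) := fun x =>
    Subgroup.subset_closure (by
      unfold SS SK
      simp)
  have : g = fK (g.e, fun i => xor (g.k i) g.z) * fF ((g.l1, g.l2), g.z) *
      (fA (fun i => (g.u i).1) * (fF ((0, 0), true) * fA (fun i => (g.u i).2) * fF ((0, 0), true))) := by
    apply gext <;> simp [fK, fF, fA]
  rw [this]
  exact mul_mem (mul_mem (hK _) (hF _)) (mul_mem (hA _) (mul_mem (mul_mem (hF _) (hA _)) (hF _)))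

lemma SS'_closure : Subgroup.closure ((SS' : Finset (GG t m e q N)) : Set (GG t m e q N)) = ⊤ := by
  rw [eq_top_iff, ← SS_closure]
  exact Subgroup.closure_mono (Finset.coe_subset.2 SS_sub)

end conc

end Pool.Agent.H299.Slow
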